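import Pool.Agent.Helper80.Stz.Four1

/-! # Fourier transfer (module B4) -/

set_option autoImplicit false

namespace Stz

open Finset

namespace H80

/-- complex average -/
noncomputable def avC (A : ℕ) [NeZero A] (Q : Finset ℕ) (Φ : ZMod A → ℂ) : ℂ :=
  (Q.offDiag.card : ℂ)⁻¹ * ∑ p ∈ Q.offDiag, (((p.1 * p.2 : ℕ)) : ℂ)⁻¹ *
    ∑ s ∈ Hd A (p.1 * p.2), Φ s

/-- proportion of the directions dividing `k` -/
noncomputable def nu (A : ℕ) (Q : Finset ℕ) (k : ZMod A) : ℝ :=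
  ((Q.offDiag.filter fun p => ((p.1 * p.2 : ℕ) : ℤ) ∣ k.valMinAbs).card : ℝ) / Q.offDiag.card

theorem dvd_of_off {A : ℕ} {Q : Finset ℕ} (hQ : ∀ q ∈ Q, q.Prime ∧ q ∣ A) {p : ℕ × ℕ}
    (hp : p ∈ Q.offDiag) : p.1 * p.2 ∣ A ∧ 1 ≤ p.1 * p.2 := by
  obtain ⟨hp1, hp2, hp3⟩ := mem_offDiag.1 hp
  refine ⟨((Nat.coprime_primes (hQ _ hp1).1 (hQ _ hp2).1).2 hp3).mul_dvd_of_dvd_of_dvd
    (hQ _ hp1).2 (hQ _ hp2).2, ?_⟩
  exact Nat.mul_pos (hQ _ hp1).1.pos (hQ _ hp2).1.pos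

theorem off_pos {Q : Finset ℕ} (hc : 2 ≤ Q.card) : 0 < Q.offDiag.card := by
  rw [offDiag_card]
  have : Q.card * 2 ≤ Q.card * Q.card := Nat.mul_le_mul_left _ hc
  omega

theorem avC_ps (A : ℕ) [NeZero A] (Q : Finset ℕ) (hQ : ∀ q ∈ Q, q.Prime ∧ q ∣ A) (k : ZMod A) :
    avC A Q (fun s => ps A (k * s)) = ((nu A Q k : ℝ) : ℂ) := by
  unfold avC nu
  have h1 : ∀ p ∈ Q.offDiag, (((p.1 * p.2 : ℕ)) : ℂ)⁻¹ * ∑ s ∈ Hd A (p.1 * p.2), ps A (k * s) =
      if ((p.1 * p.2 : ℕ) : ℤ) ∣ k.valMinAbs then 1 else 0 := by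
    intro p hp
    obtain ⟨h2, h3⟩ := dvd_of_off hQ hp
    rw [sum_ps_Hd _ h2]
    have h4 : (((p.1 * p.2 : ℕ)) : ℂ) ≠ 0 := by
      rw [Nat.cast_ne_zero]; omega
    split_ifs
    · exact inv_mul_cancel₀ h4
    · rw [mul_zero]
  rw [sum_congr rfl h1, sum_boole]
  push_cast
  rw [div_eq_inv_mul]

theorem avC_sum (A : ℕ) [NeZero A] (Q : Finset ℕ) {κ : Type*} (T : Finset κ) (c : κ → ℂ)
    (Φ : κ → ZMod A → ℂ) : avC A Q (fun s => ∑ k ∈ T, c k * Φ k s) =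
      ∑ k ∈ T, c k * avC A Q (Φ k) := by
  unfold avC
  simp only [mul_sum]
  conv_rhs => rw [sum_comm]
  apply sum_congr rfl
  intro p _
  conv_rhs => rw [sum_comm]
  apply sum_congr rfl
  intro s _
  apply sum_congr rfl
  intro k _
  ring

theorem avC_norm_le (A : ℕ) [NeZero A] (Q : Finset ℕ) (hQ : ∀ q ∈ Q, q.Prime ∧ q ∣ A)
    (hc : 2 ≤ Q.card) (Φ : ZMod A → ℂ) (B : ℝ) (hB : ∀ s, ‖Φ s‖ ≤ B) : ‖avC A Q Φ‖ ≤ B := by
  have h0 : (0 : ℝ) < Q.offDiag.card := by exact_mod_cast off_pos hc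
  unfold avC
  rw [norm_mul, norm_inv, Complex.norm_natCast, inv_mul_eq_div, div_le_iff₀ h0]
  refine (norm_sum_le _ _).trans ?_
  calc ∑ p ∈ Q.offDiag, ‖(((p.1 * p.2 : ℕ)) : ℂ)⁻¹ * ∑ s ∈ Hd A (p.1 * p.2), Φ s‖
      ≤ ∑ _p ∈ Q.offDiag, B := by
        apply sum_le_sum
        intro p hp
        obtain ⟨h2, h3⟩ := dvd_of_off hQ hp
        have h4 : (0 : ℝ) < ((p.1 * p.2 : ℕ) : ℝ) := by exact_mod_cast h3
        rw [norm_mul, norm_inv, Complex.norm_natCast, inv_mul_eq_div, div_le_iff₀ h4]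
        refine (norm_sum_le _ _).trans ?_
        calc ∑ s ∈ Hd A (p.1 * p.2), ‖Φ s‖ ≤ ∑ _s ∈ Hd A (p.1 * p.2), B :=
              sum_le_sum fun s _ => hB s
          _ = B * ((p.1 * p.2 : ℕ) : ℝ) := by
              rw [sum_const, card_Hd A _ h2, nsmul_eq_mul, mul_comm]
    _ = B * Q.offDiag.card := by rw [sum_const, nsmul_eq_mul, mul_comm]

theorem avC_add (A : ℕ) [NeZero A] (Q : Finset ℕ) (Φ Ψ : ZMod A → ℂ) :
    avC A Q (fun s => Φ s + Ψ s) = avC A Q Φ + avC A Q Ψ := by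
  unfold avC
  simp only [sum_add_distrib, mul_add]

theorem av_re (A : ℕ) [NeZero A] (Q : Finset ℕ) (hQ : ∀ q ∈ Q, q.Prime ∧ q ∣ A)
    (Φ : ZMod A → ℂ) : (av A Q fun _ s => (Φ s).re) = (avC A Q Φ).re := by
  unfold av avC
  rw [← Complex.ofReal_natCast, ← Complex.ofReal_inv, Complex.re_ofReal_mul, Complex.re_sum]
  congr 1
  apply sum_congr rfl
  intro p hp
  obtain ⟨hp1, hp2, hp3⟩ := mem_offDiag.1 hp
  rw [← Complex.ofReal_natCast, ← Complex.ofReal_inv, Complex.re_ofReal_mul, Complex.re_sum]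
  have h := sum_sh A p.1 p.2 (hQ _ hp1).1 (hQ _ hp2).1 hp3 (hQ _ hp1).2 (hQ _ hp2).2
    (fun s => (Φ s).re)
  rw [← h]
  push_cast
  rfl

theorem nu_nonneg (A : ℕ) (Q : Finset ℕ) (k : ZMod A) : 0 ≤ nu A Q k := by
  unfold nu; positivity

theorem nu_le_one (A : ℕ) (Q : Finset ℕ) (k : ZMod A) : nu A Q k ≤ 1 := by
  unfold nu
  apply div_le_one_of_le₀ _ (Nat.cast_nonneg _)
  exact_mod_cast card_le_card (filter_subset _ _)

theorem nu_zero (A : ℕ) (Q : Finset ℕ) (hc : 2 ≤ Q.card) : nu A Q 0 = 1 := by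
  unfold nu
  have h0 : (Q.offDiag.card : ℝ) ≠ 0 := by
    have := off_pos hc
    exact_mod_cast this.ne'
  rw [ZMod.valMinAbs_zero]
  simp only [dvd_zero, filter_true]
  exact div_self h0

theorem nu_le (A : ℕ) [NeZero A] (Q : Finset ℕ) (hc : 2 ≤ Q.card) (K ε : ℝ)
    (hε : ∀ k : ℤ, k ≠ 0 → |(k : ℝ)| ≤ 2 * K →
      ((Q.filter fun q : ℕ => (q : ℤ) ∣ k).card : ℝ) ^ 2 ≤ ε * Q.offDiag.card)
    (k : ZMod A) (hk : k ≠ 0) (hkK : |(k.valMinAbs : ℝ)| ≤ 2 * K) : nu A Q k ≤ ε := by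
  unfold nu
  have h0 : (0 : ℝ) < Q.offDiag.card := by exact_mod_cast off_pos hc
  rw [div_le_iff₀ h0]
  refine le_trans ?_ (hε k.valMinAbs (by
    intro h; exact hk (ZMod.valMinAbs_eq_zero k |>.1 h)) hkK)
  have h1 : (Q.offDiag.filter fun p => ((p.1 * p.2 : ℕ) : ℤ) ∣ k.valMinAbs) ⊆
      (Q.filter fun q : ℕ => (q : ℤ) ∣ k.valMinAbs) ×ˢ
        (Q.filter fun q : ℕ => (q : ℤ) ∣ k.valMinAbs) := by
    intro p hp
    obtain ⟨h1, h2⟩ := mem_filter.1 hp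
    obtain ⟨hp1, hp2, hp3⟩ := mem_offDiag.1 h1
    push_cast at h2
    rw [mem_product]
    exact ⟨mem_filter.2 ⟨hp1, dvd_trans (dvd_mul_right _ _) h2⟩,
      mem_filter.2 ⟨hp2, dvd_trans (dvd_mul_left _ _) h2⟩⟩
  have h2 := card_le_card h1
  rw [card_product] at h2
  have h3 : ((Q.offDiag.filter fun p => ((p.1 * p.2 : ℕ) : ℤ) ∣ k.valMinAbs).card : ℝ) ≤
      (((Q.filter fun q : ℕ => (q : ℤ) ∣ k.valMinAbs).card *
        (Q.filter fun q : ℕ => (q : ℤ) ∣ k.valMinAbs).card : ℕ) : ℝ) := by exact_mod_cast h2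
  rw [Nat.cast_mul] at h3
  rw [sq]
  exact h3

/-- average over the subgroup killed by `d` -/
noncomputable def proj (A d : ℕ) [NeZero A] (f : ZMod A → ℂ) (y : ZMod A) : ℂ :=
  (d : ℂ)⁻¹ * ∑ s ∈ Hd A d, f (y + s)

theorem ft_shift (A : ℕ) [NeZero A] (f : ZMod A → ℂ) (s k : ZMod A) :
    ft A (fun y => f (y + s)) k = ps A (-(k * s)) * ft A f k := by
  unfold ft
  have h : ∑ z, f (z + s) * ps A (k * z) = ps A (-(k * s)) * ∑ z, f z * ps A (k * z) := by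
    rw [mul_sum, ← Equiv.sum_comp (Equiv.addRight s)
      (fun z => ps A (-(k * s)) * (f z * ps A (k * z)))]
    apply sum_congr rfl
    intro z _
    simp only [Equiv.coe_addRight]
    have : ps A (k * z) = ps A (-(k * s)) * ps A (k * (z + s)) := by
      rw [← ps_add]; congr 1; ring
    rw [this]; ring
  rw [h]; ring

theorem ft_proj (A d : ℕ) [NeZero A] (hd : d ∣ A) (hd0 : 1 ≤ d) (f : ZMod A → ℂ) (k : ZMod A) :
    ft A (proj A d f) k = if (d : ℤ) ∣ k.valMinAbs then ft A f k else 0 := by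
  have h1 : ft A (proj A d f) k = (d : ℂ)⁻¹ * ∑ s ∈ Hd A d, ft A (fun y => f (y + s)) k := by
    unfold ft proj
    rw [← mul_sum, ← mul_assoc, mul_comm (d : ℂ)⁻¹, mul_assoc]
    congr 1
    rw [sum_comm, mul_sum]
    apply sum_congr rfl
    intro z _
    rw [mul_assoc, sum_mul]
  rw [h1]
  simp only [ft_shift]
  rw [← sum_mul]
  have h2 : ∑ s ∈ Hd A d, ps A (-(k * s)) = ∑ s ∈ Hd A d, ps A (k * s) := by
    apply Finset.sum_bij (fun s _ => -s)
    · intro s hs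
      rw [mem_Hd] at hs ⊢
      rw [mul_neg, hs, neg_zero]
    · intro s _ s' _ h
      exact neg_injective h
    · intro s hs
      refine ⟨-s, ?_, neg_neg s⟩
      rw [mem_Hd] at hs ⊢
      rw [mul_neg, hs, neg_zero]
    · intro s _
      congr 1
      ring
  have hd' : (d : ℂ) ≠ 0 := by
    rw [Nat.cast_ne_zero]; omega
  rw [h2, sum_ps_Hd d hd]
  split_ifs
  · field_simp
  · simp

theorem proj_norm (A d : ℕ) [NeZero A] (hd : d ∣ A) (hd0 : 1 ≤ d) (f : ZMod A → ℂ)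
    (hf : ∀ z, ‖f z‖ ≤ 1) (y : ZMod A) : ‖proj A d f y‖ ≤ 1 := by
  unfold proj
  have h0 : (0 : ℝ) < d := by exact_mod_cast hd0
  rw [norm_mul, norm_inv, Complex.norm_natCast, inv_mul_eq_div, div_le_iff₀ h0]
  refine (norm_sum_le _ _).trans ?_
  calc ∑ s ∈ Hd A d, ‖f (y + s)‖ ≤ ∑ _s ∈ Hd A d, (1 : ℝ) := sum_le_sum fun s _ => hf _
    _ = 1 * d := by rw [sum_const, card_Hd A d hd, nsmul_eq_mul, mul_comm]

theorem tv_shift (A : ℕ) [NeZero A] (f : ZMod A → ℂ) (s : ZMod A) :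
    tv A (fun z => f (z + s)) = tv A f := by
  unfold tv
  rw [← Equiv.sum_comp (Equiv.addRight s) (fun z => ‖f (z + 1) - f z‖)]
  apply sum_congr rfl
  intro z _
  simp only [Equiv.coe_addRight]
  congr 3
  ring

theorem tv_conj (A : ℕ) [NeZero A] (f : ZMod A → ℂ) :
    tv A (fun z => (starRingEnd ℂ) (f z)) = tv A f := by
  unfold tv
  apply sum_congr rfl
  intro z _
  rw [← map_sub, Complex.norm_conj]

theorem tv_mul (A : ℕ) [NeZero A] (f g : ZMod A → ℂ) (hf : ∀ z, ‖f z‖ ≤ 1)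
    (hg : ∀ z, ‖g z‖ ≤ 1) : tv A (fun z => f z * g z) ≤ tv A f + tv A g := by
  unfold tv
  rw [← sum_add_distrib]
  apply sum_le_sum
  intro z _
  have h1 : f (z + 1) * g (z + 1) - f z * g z =
      (f (z + 1) - f z) * g (z + 1) + f z * (g (z + 1) - g z) := by ring
  rw [h1]
  refine (norm_add_le _ _).trans ?_
  rw [norm_mul, norm_mul]
  have h2 := hf z
  have h3 := hg (z + 1)
  have h4 := norm_nonneg (f (z + 1) - f z)
  have h5 := norm_nonneg (g (z + 1) - g z)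
  nlinarith

theorem tv_proj (A d : ℕ) [NeZero A] (hd : d ∣ A) (hd0 : 1 ≤ d) (f : ZMod A → ℂ) :
    tv A (proj A d f) ≤ tv A f := by
  have h0 : (0 : ℝ) < d := by exact_mod_cast hd0
  calc tv A (proj A d f) ≤ ∑ z, (d : ℝ)⁻¹ * ∑ s ∈ Hd A d, ‖f (z + s + 1) - f (z + s)‖ := by
        unfold tv proj
        apply sum_le_sum
        intro z _
        rw [← mul_sub, ← sum_sub_distrib, norm_mul, norm_inv, Complex.norm_natCast]
        gcongr
        refine (norm_sum_le _ _).trans (le_of_eq ?_)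
        apply sum_congr rfl
        intro s _
        congr 3
        ring
    _ = (d : ℝ)⁻¹ * ∑ s ∈ Hd A d, tv A (fun z => f (z + s)) := by
        rw [← mul_sum, sum_comm]
        congr 1
        apply sum_congr rfl
        intro s _
        unfold tv
        apply sum_congr rfl
        intro z _
        congr 3
        ring
    _ = tv A f := by
        simp only [tv_shift]
        rw [sum_const, card_Hd A d hd, nsmul_eq_mul]
        field_simp

/-- AM-GM for Fourier sums with weights at most `ε` on a set -/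
theorem sum_mul_le (A : ℕ) [NeZero A] (P G : ZMod A → ℂ) (w : ZMod A → ℝ) (B : Finset (ZMod A))
    (ε : ℝ) (hε : 0 ≤ ε) (hw : ∀ k ∈ B, |w k| ≤ ε) :
    ‖∑ k ∈ B, ft A P (-k) * ft A G k * (w k : ℂ)‖ ≤
      ε * ((∑ k ∈ B, ‖ft A P (-k)‖ ^ 2 + ∑ k ∈ B, ‖ft A G k‖ ^ 2) / 2) := by
  refine (norm_sum_le _ _).trans ?_
  rw [← sum_add_distrib, sum_div, mul_sum]
  apply sum_le_sum
  intro k hk
  rw [norm_mul, norm_mul, Complex.norm_real, Real.norm_eq_abs]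
  have h1 : ‖ft A P (-k)‖ * ‖ft A G k‖ ≤ (‖ft A P (-k)‖ ^ 2 + ‖ft A G k‖ ^ 2) / 2 := by
    nlinarith [sq_nonneg (‖ft A P (-k)‖ - ‖ft A G k‖)]
  have h2 := hw k hk
  have h3 : 0 ≤ ‖ft A P (-k)‖ * ‖ft A G k‖ := by positivity
  calc ‖ft A P (-k)‖ * ‖ft A G k‖ * |w k| ≤ ‖ft A P (-k)‖ * ‖ft A G k‖ * ε := by gcongr
    _ ≤ (‖ft A P (-k)‖ ^ 2 + ‖ft A G k‖ ^ 2) / 2 * ε := by gcongr
    _ = _ := by ring

/-- average of a correlation -/
theorem av_corr (A : ℕ) [NeZero A] (Q : Finset ℕ) (hQ : ∀ q ∈ Q, q.Prime ∧ q ∣ A)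
    (hc : 2 ≤ Q.card) (P G : ZMod A → ℂ) (hP : ∀ z, ‖P z‖ ≤ 1) (hG : ∀ z, ‖G z‖ ≤ 1)
    (W K ε : ℝ) (hPW : tv A P ≤ W) (hGW : tv A G ≤ W) (hK : 1 ≤ K) (hε0 : 0 ≤ ε)
    (hε : ∀ k : ℤ, k ≠ 0 → |(k : ℝ)| ≤ 2 * K →
      ((Q.filter fun q : ℕ => (q : ℤ) ∣ k).card : ℝ) ^ 2 ≤ ε * Q.offDiag.card) :
    ‖avC A Q (fun t => (A : ℂ)⁻¹ * ∑ z, P z * G (z + t)) - ft A P 0 * ft A G 0‖ ≤
      ε + W ^ 2 / (8 * K) := by
  classical
  have h1 : avC A Q (fun t => (A : ℂ)⁻¹ * ∑ z, P z * G (z + t)) =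
      ∑ k, ft A P (-k) * ft A G k * ((nu A Q (-k) : ℝ) : ℂ) := by
    have h2 : (fun t => (A : ℂ)⁻¹ * ∑ z, P z * G (z + t)) =
        fun t => ∑ k ∈ (univ : Finset (ZMod A)), (ft A P (-k) * ft A G k) * ps A (-k * t) := by
      funext t
      rw [corr]
      apply sum_congr rfl
      intro k _
      congr 2
      ring
    rw [h2, avC_sum]
    apply sum_congr rfl
    intro k _
    rw [avC_ps A Q hQ]
  set Bs : Finset (ZMod A) := univ.filter fun k => k ≠ 0 ∧ ¬ 2 * K < |(k.valMinAbs : ℝ)| with hBs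
  set Bl : Finset (ZMod A) := univ.filter fun k => 2 * K < |(k.valMinAbs : ℝ)| with hBl
  have h0l : (0 : ZMod A) ∉ Bl := by
    rw [hBl, mem_filter, ZMod.valMinAbs_zero]
    simp only [mem_univ, true_and, Int.cast_zero, abs_zero, not_lt]
    linarith
  have h0s : (0 : ZMod A) ∉ Bs := by simp [hBs]
  have hdis : Disjoint Bs Bl := by
    rw [disjoint_left]
    intro k h h'
    exact (mem_filter.1 h).2.2 (mem_filter.1 h').2
  have huniv : (univ : Finset (ZMod A)) = insert 0 (Bs ∪ Bl) := by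
    ext k
    simp only [mem_univ, true_iff, mem_insert, mem_union, hBs, hBl, mem_filter, true_and]
    tauto
  have h0n : (0 : ZMod A) ∉ Bs ∪ Bl := by
    rw [mem_union]; tauto
  have h2 : avC A Q (fun t => (A : ℂ)⁻¹ * ∑ z, P z * G (z + t)) - ft A P 0 * ft A G 0 =
      ∑ k ∈ Bs, ft A P (-k) * ft A G k * ((nu A Q (-k) : ℝ) : ℂ) +
        ∑ k ∈ Bl, ft A P (-k) * ft A G k * ((nu A Q (-k) : ℝ) : ℂ) := by
    rw [h1, huniv, sum_insert h0n, sum_union hdis, neg_zero, nu_zero A Q hc]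
    push_cast
    ring
  rw [h2]
  refine (norm_add_le _ _).trans ?_
  have e1 := sum_mul_le A P G (fun k => nu A Q (-k)) Bs ε hε0 (by
    intro k hk
    have hk' := (mem_filter.1 hk).2
    rw [abs_of_nonneg (nu_nonneg A Q _)]
    apply nu_le A Q hc K ε hε (-k) (neg_ne_zero.2 hk'.1)
    rw [valMinAbs_neg_abs]
    exact not_lt.1 hk'.2)
  have e2 := sum_mul_le A P G (fun k => nu A Q (-k)) Bl 1 zero_le_one (by
    intro k _
    rw [abs_of_nonneg (nu_nonneg A Q _)]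
    exact nu_le_one A Q _)
  have hPs : ∑ k ∈ Bs, ‖ft A P (-k)‖ ^ 2 ≤ 1 := by
    refine le_trans ?_ (parseval_le P hP)
    rw [← Equiv.sum_comp (Equiv.neg (ZMod A)) fun k => ‖ft A P k‖ ^ 2]
    exact sum_le_sum_of_subset_of_nonneg (subset_univ _) fun _ _ _ => by positivity
  have hGs : ∑ k ∈ Bs, ‖ft A G k‖ ^ 2 ≤ 1 :=
    le_trans (sum_le_sum_of_subset_of_nonneg (subset_univ _) fun _ _ _ => by positivity)
      (parseval_le G hG)
  have hPl : ∑ k ∈ Bl, ‖ft A P (-k)‖ ^ 2 ≤ W ^ 2 / (4 * (2 * K)) := by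
    refine le_trans (le_of_eq ?_) (tail A P W (2 * K) hPW (by linarith))
    apply Finset.sum_bij (fun k _ => -k)
    · intro k hk
      rw [mem_filter] at hk ⊢
      exact ⟨mem_univ _, by rw [valMinAbs_neg_abs]; exact hk.2⟩
    · intro k _ k' _ h
      exact neg_injective h
    · intro k hk
      refine ⟨-k, ?_, neg_neg k⟩
      rw [mem_filter] at hk ⊢
      exact ⟨mem_univ _, by rw [valMinAbs_neg_abs]; exact hk.2⟩
    · intro k _
      rfl
  have hGl : ∑ k ∈ Bl, ‖ft A G k‖ ^ 2 ≤ W ^ 2 / (4 * (2 * K)) :=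
    tail A G W (2 * K) hGW (by linarith)
  have e3 : ε * ((∑ k ∈ Bs, ‖ft A P (-k)‖ ^ 2 + ∑ k ∈ Bs, ‖ft A G k‖ ^ 2) / 2) ≤ ε * 1 := by
    gcongr
    linarith
  have e4 : W ^ 2 / (4 * (2 * K)) = W ^ 2 / (8 * K) := by ring_nf
  rw [e4] at hPl hGl
  linarith

/-- the diagonal term -/
theorem av_diag (A : ℕ) [NeZero A] (Q : Finset ℕ) (hc : 2 ≤ Q.card) (a : ZMod A → ℝ)
    (ha : ∀ k, 0 ≤ a k) (D : Finset (ZMod A)) (T K ε : ℝ) (ha1 : ∑ k, a k ≤ 1)
    (haT : ∑ k ∈ univ.filter (fun k : ZMod A => K < |(k.valMinAbs : ℝ)|), a k ≤ T)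
    (hε0 : 0 ≤ ε)
    (hε : ∀ k : ℤ, k ≠ 0 → |(k : ℝ)| ≤ 2 * K →
      ((Q.filter fun q : ℕ => (q : ℤ) ∣ k).card : ℝ) ^ 2 ≤ ε * Q.offDiag.card) :
    ∑ k, ∑ l ∈ D, a k * a l * nu A Q (k - l) ≤ ∑ l ∈ D, a l ^ 2 + ε + 2 * T := by
  classical
  set B : Finset (ZMod A) := univ.filter (fun k : ZMod A => K < |(k.valMinAbs : ℝ)|) with hB
  have hA := Apos (A := A)
  have hT0 : 0 ≤ T := le_trans (sum_nonneg fun k _ => ha k) haT
  have hpt : ∀ k, ∀ l ∈ D, a k * a l * nu A Q (k - l) ≤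
      (if k = l then a l ^ 2 else 0) + ε * (a k * a l) +
        ((if k ∈ B then a k * a l else 0) + (if l ∈ B then a k * a l else 0)) := by
    intro k l _
    have hkl : 0 ≤ a k * a l := mul_nonneg (ha k) (ha l)
    have hn0 := nu_nonneg A Q (k - l)
    have hn1 := nu_le_one A Q (k - l)
    have t1 : 0 ≤ (if k ∈ B then a k * a l else 0) := by split_ifs <;> positivity
    have t2 : 0 ≤ (if l ∈ B then a k * a l else 0) := by split_ifs <;> positivity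
    have t3 : 0 ≤ ε * (a k * a l) := by positivity
    by_cases h : k = l
    · rw [if_pos h, h]
      subst h
      nlinarith
    · rw [if_neg h]
      by_cases h2 : |((k - l).valMinAbs : ℝ)| ≤ 2 * K
      · have := nu_le A Q hc K ε hε (k - l) (sub_ne_zero.2 h) h2
        nlinarith
      · have h3 : k ∈ B ∨ l ∈ B := by
          by_contra hno
          push Not at hno
          apply h2
          have h4 := nrm_sub k l
          unfold nrm at h4
          rw [← add_div, div_le_div_iff_of_pos_right hA] at h4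
          have h5 : |(k.valMinAbs : ℝ)| ≤ K := by
            by_contra h6
            exact hno.1 (mem_filter.2 ⟨mem_univ _, not_le.1 h6⟩)
          have h6 : |(l.valMinAbs : ℝ)| ≤ K := by
            by_contra h6
            exact hno.2 (mem_filter.2 ⟨mem_univ _, not_le.1 h6⟩)
          linarith
        rcases h3 with h3 | h3
        · rw [if_pos h3]
          nlinarith
        · rw [if_pos h3]
          nlinarith
  have h1 : ∑ k, ∑ l ∈ D, a k * a l * nu A Q (k - l) ≤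
      ∑ k, ∑ l ∈ D, ((if k = l then a l ^ 2 else 0) + ε * (a k * a l) +
        ((if k ∈ B then a k * a l else 0) + (if l ∈ B then a k * a l else 0))) :=
    sum_le_sum fun k _ => sum_le_sum fun l hl => hpt k l hl
  refine h1.trans ?_
  simp only [sum_add_distrib]
  have s1 : ∑ k : ZMod A, ∑ l ∈ D, (if k = l then a l ^ 2 else 0) = ∑ l ∈ D, a l ^ 2 := by
    rw [sum_comm]
    apply sum_congr rfl
    intro l _
    rw [sum_ite_eq' univ l]
    simp
  have hD1 : ∑ l ∈ D, a l ≤ 1 :=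
    (sum_le_sum_of_subset_of_nonneg (subset_univ _) fun l _ _ => ha l).trans ha1
  have hD0 : 0 ≤ ∑ l ∈ D, a l := sum_nonneg fun l _ => ha l
  have hA0 : 0 ≤ ∑ k, a k := sum_nonneg fun l _ => ha l
  have s2 : ∑ k : ZMod A, ∑ l ∈ D, ε * (a k * a l) ≤ ε := by
    have : ∑ k : ZMod A, ∑ l ∈ D, ε * (a k * a l) = ε * ((∑ k, a k) * ∑ l ∈ D, a l) := by
      rw [sum_mul_sum, mul_sum]
      apply sum_congr rfl
      intro k _
      rw [mul_sum]
    rw [this]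
    have : (∑ k, a k) * ∑ l ∈ D, a l ≤ 1 := mul_le_one₀ ha1 hD0 hD1
    nlinarith
  have s3 : ∑ k : ZMod A, ∑ l ∈ D, (if k ∈ B then a k * a l else 0) ≤ T := by
    have : ∑ k : ZMod A, ∑ l ∈ D, (if k ∈ B then a k * a l else 0) =
        (∑ k ∈ B, a k) * ∑ l ∈ D, a l := by
      rw [sum_mul_sum, ← sum_filter_add_sum_filter_not univ (fun k => k ∈ B)]
      have e1 : ∑ k ∈ univ.filter (fun k => ¬ k ∈ B), ∑ l ∈ D,
          (if k ∈ B then a k * a l else 0) = 0 := by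
        apply sum_eq_zero
        intro k hk
        apply sum_eq_zero
        intro l _
        rw [if_neg (mem_filter.1 hk).2]
      rw [e1, add_zero, filter_mem_eq_inter, univ_inter]
      apply sum_congr rfl
      intro k hk
      apply sum_congr rfl
      intro l _
      rw [if_pos hk]
    rw [this]
    have hB0 : 0 ≤ ∑ k ∈ B, a k := sum_nonneg fun l _ => ha l
    calc (∑ k ∈ B, a k) * ∑ l ∈ D, a l ≤ T * 1 := mul_le_mul haT hD1 hD0 hT0
      _ = T := mul_one T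
  have s4 : ∑ k : ZMod A, ∑ l ∈ D, (if l ∈ B then a k * a l else 0) ≤ T := by
    have : ∑ k : ZMod A, ∑ l ∈ D, (if l ∈ B then a k * a l else 0) =
        (∑ k, a k) * ∑ l ∈ D ∩ B, a l := by
      rw [sum_mul_sum]
      apply sum_congr rfl
      intro k _
      rw [sum_ite_mem]
    rw [this]
    have hB0 : 0 ≤ ∑ l ∈ D ∩ B, a l := sum_nonneg fun l _ => ha l
    have hB1 : ∑ l ∈ D ∩ B, a l ≤ T :=
      (sum_le_sum_of_subset_of_nonneg inter_subset_right fun l _ _ => ha l).trans haT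
    calc (∑ k, a k) * ∑ l ∈ D ∩ B, a l ≤ 1 * T := mul_le_mul ha1 hB1 hB0 zero_le_one
      _ = T := one_mul T
  rw [s1]
  linarith

theorem ft_P (A : ℕ) [NeZero A] (f : ZMod A → ℂ) (s : ZMod A) :
    ft A (fun z => f z * (starRingEnd ℂ) (f (z + s))) 0 =
      ∑ k, ((‖ft A f k‖ ^ 2 : ℝ) : ℂ) * ps A (k * s) := by
  have h := corr f (fun z => (starRingEnd ℂ) (f z)) s
  have h0 : ft A (fun z => f z * (starRingEnd ℂ) (f (z + s))) 0 =
      (A : ℂ)⁻¹ * ∑ z, f z * (starRingEnd ℂ) (f (z + s)) := by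
    unfold ft
    simp only [zero_mul, ps_zero, mul_one]
  rw [h0, h, ← Equiv.sum_comp (Equiv.neg (ZMod A))]
  apply sum_congr rfl
  intro k _
  simp only [Equiv.neg_apply, neg_neg]
  rw [ft_conj, neg_neg, Complex.mul_conj, Complex.normSq_eq_norm_sq]
  congr 2
  ring

theorem ft_G (A d : ℕ) [NeZero A] (hd : d ∣ A) (hd0 : 1 ≤ d) (f : ZMod A → ℂ) (s : ZMod A) :
    ft A (fun z => (starRingEnd ℂ) (f z) * proj A d f (z + s)) 0 =
      ∑ k ∈ univ.filter (fun k : ZMod A => (d : ℤ) ∣ k.valMinAbs),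
        ((‖ft A f k‖ ^ 2 : ℝ) : ℂ) * ps A (-(k * s)) := by
  have h := corr (fun z => (starRingEnd ℂ) (f z)) (proj A d f) s
  have h0 : ft A (fun z => (starRingEnd ℂ) (f z) * proj A d f (z + s)) 0 =
      (A : ℂ)⁻¹ * ∑ z, (starRingEnd ℂ) (f z) * proj A d f (z + s) := by
    unfold ft
    simp only [zero_mul, ps_zero, mul_one]
  rw [h0, h, sum_filter]
  apply sum_congr rfl
  intro k _
  rw [ft_conj, neg_neg, ft_proj A d hd hd0]
  split_ifs
  · rw [mul_comm ((starRingEnd ℂ) (ft A f k)), Complex.mul_conj, Complex.normSq_eq_norm_sq]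
  · simp

end H80

open H80

/-- The Fourier transfer (module B4). -/
theorem transfer (A : ℕ) [NeZero A] (Q1 Q2 : Finset ℕ)
    (hQ1 : ∀ q ∈ Q1, q.Prime ∧ q ∣ A) (hQ2 : ∀ q ∈ Q2, q.Prime ∧ q ∣ A)
    (hc1 : 2 ≤ Q1.card) (hc2 : 2 ≤ Q2.card)
    (q q' : ℕ) (hq : q.Prime) (hq' : q'.Prime) (hne : q ≠ q') (hqA : q ∣ A) (hqA' : q' ∣ A)
    (f : ZMod A → ℂ) (hf : ∀ z, ‖f z‖ ≤ 1) (V K ε : ℝ) (hV : tv A f ≤ V) (hK : 1 ≤ K)
    (hVK : V ^ 2 ≤ K)
    (hε1 : ∀ k : ℤ, k ≠ 0 → |(k : ℝ)| ≤ 2 * K →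
      ((Q1.filter fun q : ℕ => (q : ℤ) ∣ k).card : ℝ) ^ 2 ≤ ε * Q1.offDiag.card)
    (hε2 : ∀ k : ℤ, k ≠ 0 → |(k : ℝ)| ≤ 2 * K →
      ((Q2.filter fun q : ℕ => (q : ℤ) ∣ k).card : ℝ) ^ 2 ≤ ε * Q2.offDiag.card) :
    |av A Q1 fun _ s1 => av A Q2 fun _ s2 => ((q : ℝ) * q')⁻¹ *
        ∑ a ∈ range q, ∑ a' ∈ range q', (A : ℝ)⁻¹ * ∑ z : ZMod A,
          (f z * (starRingEnd ℂ) (f (z + s1)) * (starRingEnd ℂ) (f (z + s2)) *
            f (z + s1 + s2 + sh A q q' a a')).re| ≤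
      (∑ k ∈ univ.filter (fun k : ZMod A => (q : ℤ) ∣ k.valMinAbs ∧ (q' : ℤ) ∣ k.valMinAbs),
        ‖ft A f k‖ ^ 4) + 2 * ε + 2 * V / Real.sqrt K := by
  classical
  have hV0 : 0 ≤ V := (tv_nonneg A f).trans hV
  have hK0 : 0 < K := by linarith
  have hcop : Nat.Coprime q q' := (Nat.coprime_primes hq hq').2 hne
  have hdA : q * q' ∣ A := hcop.mul_dvd_of_dvd_of_dvd hqA hqA'
  have hd0 : 1 ≤ q * q' := Nat.mul_pos hq.pos hq'.pos
  have hε0 : 0 ≤ ε := by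
    have h1 := hε1 1 one_ne_zero (by
      push_cast; rw [abs_one]; linarith)
    have h2 : (0 : ℝ) < Q1.offDiag.card := by exact_mod_cast off_pos hc1
    have h3 : 0 ≤ ε * Q1.offDiag.card := le_trans (by positivity) h1
    exact nonneg_of_mul_nonneg_left h3 h2
  set P : ZMod A → ZMod A → ℂ := fun s z => f z * (starRingEnd ℂ) (f (z + s)) with hP
  set G : ZMod A → ZMod A → ℂ := fun s z => (starRingEnd ℂ) (f z) * proj A (q * q') f (z + s)
    with hG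
  -- the inner expression
  have hin : ∀ s1 s2 : ZMod A, ((q : ℝ) * q')⁻¹ *
        ∑ a ∈ range q, ∑ a' ∈ range q', (A : ℝ)⁻¹ * ∑ z : ZMod A,
          (f z * (starRingEnd ℂ) (f (z + s1)) * (starRingEnd ℂ) (f (z + s2)) *
            f (z + s1 + s2 + sh A q q' a a')).re =
      ((A : ℂ)⁻¹ * ∑ z, P s1 z * G s1 (z + s2)).re := by
    intro s1 s2
    have h1 := sum_sh A q q' hq hq' hne hqA hqA' (fun s => (A : ℝ)⁻¹ * ∑ z : ZMod A,
          (f z * (starRingEnd ℂ) (f (z + s1)) * (starRingEnd ℂ) (f (z + s2)) *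
            f (z + s1 + s2 + s)).re)
    rw [h1]
    have h2 : (A : ℂ)⁻¹ * ∑ z, P s1 z * G s1 (z + s2) = ((((q : ℝ) * q')⁻¹ : ℝ) : ℂ) *
        ∑ s ∈ Hd A (q * q'), (((A : ℝ)⁻¹ : ℝ) : ℂ) * ∑ z : ZMod A,
          (f z * (starRingEnd ℂ) (f (z + s1)) * (starRingEnd ℂ) (f (z + s2)) *
            f (z + s1 + s2 + s)) := by
      rw [← mul_sum, sum_comm]
      push_cast
      rw [← mul_assoc, mul_comm ((q : ℂ) * q')⁻¹, mul_assoc]
      congr 1
      rw [mul_sum]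
      apply sum_congr rfl
      intro z _
      simp only [hP, hG, proj]
      push_cast
      simp only [mul_sum]
      apply sum_congr rfl
      intro s _
      have : z + s2 + s1 + s = z + s1 + s2 + s := by ring
      rw [this]
      ring
    rw [h2, Complex.re_ofReal_mul, Complex.re_sum]
    congr 1
    apply sum_congr rfl
    intro s _
    rw [Complex.re_ofReal_mul, Complex.re_sum]
  have hstep1 : (av A Q1 fun _ s1 => av A Q2 fun _ s2 => ((q : ℝ) * q')⁻¹ *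
        ∑ a ∈ range q, ∑ a' ∈ range q', (A : ℝ)⁻¹ * ∑ z : ZMod A,
          (f z * (starRingEnd ℂ) (f (z + s1)) * (starRingEnd ℂ) (f (z + s2)) *
            f (z + s1 + s2 + sh A q q' a a')).re) =
      (avC A Q1 fun s1 => avC A Q2 fun s2 => (A : ℂ)⁻¹ * ∑ z, P s1 z * G s1 (z + s2)).re := by
    rw [← av_re A Q1 hQ1]
    simp only [hin]
    congr 1
    funext _ s1
    rw [av_re A Q2 hQ2]
  rw [hstep1]
  refine (Complex.abs_re_le_norm _).trans ?_
  -- bounds for P and G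
  have hPn : ∀ s z, ‖P s z‖ ≤ 1 := by
    intro s z
    simp only [hP]
    rw [norm_mul, Complex.norm_conj]
    exact mul_le_one₀ (hf _) (norm_nonneg _) (hf _)
  have hGn : ∀ s z, ‖G s z‖ ≤ 1 := by
    intro s z
    simp only [hG]
    rw [norm_mul, Complex.norm_conj]
    exact mul_le_one₀ (hf _) (norm_nonneg _) (proj_norm A _ hdA hd0 f hf _)
  have hPt : ∀ s, tv A (P s) ≤ 2 * V := by
    intro s
    have h1 := tv_mul A f (fun z => (starRingEnd ℂ) (f (z + s))) hf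
      (fun z => by rw [Complex.norm_conj]; exact hf _)
    have h2 : tv A (fun z => (starRingEnd ℂ) (f (z + s))) = tv A f := by
      rw [tv_conj A (fun z => f (z + s)), tv_shift]
    calc tv A (P s) ≤ tv A f + tv A (fun z => (starRingEnd ℂ) (f (z + s))) := h1
      _ ≤ 2 * V := by rw [h2]; linarith
  have hGt : ∀ s, tv A (G s) ≤ 2 * V := by
    intro s
    have h1 := tv_mul A (fun z => (starRingEnd ℂ) (f z)) (fun z => proj A (q * q') f (z + s))
      (fun z => by rw [Complex.norm_conj]; exact hf _)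
      (fun z => proj_norm A _ hdA hd0 f hf _)
    have h2 : tv A (fun z => (starRingEnd ℂ) (f z)) = tv A f := tv_conj A f
    have h3 : tv A (fun z => proj A (q * q') f (z + s)) ≤ tv A f := by
      rw [tv_shift A (proj A (q * q') f) s]
      exact tv_proj A _ hdA hd0 f
    calc tv A (G s) ≤ _ := h1
      _ ≤ 2 * V := by rw [h2]; linarith
  have herr1 : ∀ s1, ‖(avC A Q2 fun s2 => (A : ℂ)⁻¹ * ∑ z, P s1 z * G s1 (z + s2)) -
      ft A (P s1) 0 * ft A (G s1) 0‖ ≤ ε + (2 * V) ^ 2 / (8 * K) := fun s1 =>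
    av_corr A Q2 hQ2 hc2 (P s1) (G s1) (hPn s1) (hGn s1) (2 * V) K ε (hPt s1) (hGt s1) hK hε0 hε2
  have hsplit : (avC A Q1 fun s1 => avC A Q2 fun s2 => (A : ℂ)⁻¹ * ∑ z, P s1 z * G s1 (z + s2)) =
      (avC A Q1 fun s1 => (avC A Q2 fun s2 => (A : ℂ)⁻¹ * ∑ z, P s1 z * G s1 (z + s2)) -
        ft A (P s1) 0 * ft A (G s1) 0) + avC A Q1 fun s1 => ft A (P s1) 0 * ft A (G s1) 0 := by
    rw [← avC_add]
    simp only [sub_add_cancel]
  rw [hsplit]
  refine (norm_add_le _ _).trans ?_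
  have e1 := avC_norm_le A Q1 hQ1 hc1 _ _ herr1
  -- the main term
  set D : Finset (ZMod A) := univ.filter (fun k : ZMod A => ((q * q' : ℕ) : ℤ) ∣ k.valMinAbs)
    with hD
  set a : ZMod A → ℝ := fun k => ‖ft A f k‖ ^ 2 with ha
  have hmain : (avC A Q1 fun s1 => ft A (P s1) 0 * ft A (G s1) 0) =
      ((∑ k, ∑ l ∈ D, a k * a l * nu A Q1 (k - l) : ℝ) : ℂ) := by
    have h1 : (fun s1 => ft A (P s1) 0 * ft A (G s1) 0) = fun s1 =>
        ∑ w ∈ (univ : Finset (ZMod A)) ×ˢ D, ((a w.1 * a w.2 : ℝ) : ℂ) *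
          ps A ((w.1 - w.2) * s1) := by
      funext s1
      simp only [hP, hG]
      rw [ft_P, ft_G A _ hdA hd0, sum_mul_sum, ← sum_product']
      apply sum_congr rfl
      intro w _
      have : ps A ((w.1 - w.2) * s1) = ps A (w.1 * s1) * ps A (-(w.2 * s1)) := by
        rw [← ps_add]; congr 1; ring
      rw [this]
      simp only [ha]
      push_cast
      ring
    rw [h1, avC_sum A Q1 (univ ×ˢ D) (fun w => ((a w.1 * a w.2 : ℝ) : ℂ))
      (fun w s1 => ps A ((w.1 - w.2) * s1)), sum_product]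
    push_cast
    apply sum_congr rfl
    intro k _
    apply sum_congr rfl
    intro l _
    rw [avC_ps A Q1 hQ1]
  have ha0 : ∀ k, 0 ≤ a k := fun k => by simp only [ha]; positivity
  have hdiag := av_diag A Q1 hc1 a ha0 D (V ^ 2 / (4 * K)) K ε (parseval_le f hf)
    (tail A f V K hV hK) hε0 hε1
  have hnn : 0 ≤ ∑ k, ∑ l ∈ D, a k * a l * nu A Q1 (k - l) :=
    sum_nonneg fun k _ => sum_nonneg fun l _ =>
      mul_nonneg (mul_nonneg (ha0 k) (ha0 l)) (nu_nonneg A Q1 _)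
  have e2 : ‖avC A Q1 fun s1 => ft A (P s1) 0 * ft A (G s1) 0‖ ≤
      ∑ l ∈ D, a l ^ 2 + ε + 2 * (V ^ 2 / (4 * K)) := by
    rw [hmain, Complex.norm_real, Real.norm_eq_abs, abs_of_nonneg hnn]
    exact hdiag
  have hD' : D = univ.filter (fun k : ZMod A => (q : ℤ) ∣ k.valMinAbs ∧ (q' : ℤ) ∣ k.valMinAbs) := by
    ext k
    simp only [hD, mem_filter, mem_univ, true_and]
    push_cast
    constructor
    · intro h
      exact ⟨dvd_trans (dvd_mul_right _ _) h, dvd_trans (dvd_mul_left _ _) h⟩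
    · rintro ⟨h1, h2⟩
      exact (Nat.isCoprime_iff_coprime.2 hcop).mul_dvd h1 h2
  have e3 : ∑ l ∈ D, a l ^ 2 =
      ∑ k ∈ univ.filter (fun k : ZMod A => (q : ℤ) ∣ k.valMinAbs ∧ (q' : ℤ) ∣ k.valMinAbs),
        ‖ft A f k‖ ^ 4 := by
    rw [← hD']
    apply sum_congr rfl
    intro k _
    simp only [ha]
    rw [← pow_mul]
  rw [e3] at e2
  have e4 : (2 * V) ^ 2 / (8 * K) + 2 * (V ^ 2 / (4 * K)) ≤ 2 * V / Real.sqrt K := by
    have h1 : (2 * V) ^ 2 / (8 * K) + 2 * (V ^ 2 / (4 * K)) = V ^ 2 / K := by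
      field_simp
      ring
    have hs : 0 < Real.sqrt K := Real.sqrt_pos.2 hK0
    have hss : Real.sqrt K ^ 2 = K := Real.sq_sqrt hK0.le
    have hVs : V ≤ Real.sqrt K := Real.le_sqrt_of_sq_le hVK
    rw [h1, div_le_div_iff₀ hK0 hs]
    calc V ^ 2 * Real.sqrt K = V * (V * Real.sqrt K) := by ring
      _ ≤ V * (Real.sqrt K * Real.sqrt K) := by gcongr
      _ = V * K := by rw [← sq, hss]
      _ ≤ 2 * V * K := by nlinarith
  linarith

end Stz
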