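import Pool.Agent.Helper80.Stz.Nrm

/-! # Fourier analysis on `ZMod A` -/

set_option autoImplicit false

namespace Stz

open Finset

namespace H80

section

variable {A : ℕ} [NeZero A]

theorem ps_zero : ps A 0 = 1 := by
  unfold ps; exact AddChar.map_zero_eq_one _

theorem ps_add (x y : ZMod A) : ps A (x + y) = ps A x * ps A y := by
  unfold ps; exact AddChar.map_add_eq_mul _ _ _

theorem ps_norm (x : ZMod A) : ‖ps A x‖ = 1 := by
  unfold ps
  rw [ZMod.stdAddChar_apply]
  exact Circle.norm_coe _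

theorem ps_ne (x : ZMod A) : ps A x ≠ 0 := by
  intro h
  have := ps_norm x
  rw [h, norm_zero] at this
  exact zero_ne_one this

theorem ps_neg (x : ZMod A) : ps A (-x) = (starRingEnd ℂ) (ps A x) := by
  have h1 : ps A (-x) * ps A x = 1 := by
    rw [← ps_add, neg_add_cancel, ps_zero]
  have h2 : (starRingEnd ℂ) (ps A x) * ps A x = 1 := by
    rw [mul_comm, Complex.mul_conj, Complex.normSq_eq_norm_sq, ps_norm]
    simp
  exact mul_right_cancel₀ (ps_ne x) (h1.trans h2.symm)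

theorem ps_eq_one (x : ZMod A) (h : ps A x = 1) : x = 0 := by
  apply ZMod.injective_stdAddChar
  rw [AddChar.map_zero_eq_one]
  exact h

/-- orthogonality on the subgroup killed by `d` -/
theorem sum_ps_Hd (d : ℕ) (hd : d ∣ A) (k : ZMod A) :
    ∑ s ∈ Hd A d, ps A (k * s) = if (d : ℤ) ∣ k.valMinAbs then (d : ℂ) else 0 := by
  obtain ⟨m, hm⟩ := hd
  have hA0 : A ≠ 0 := NeZero.ne A
  have hd0 : 0 < d := Nat.pos_of_ne_zero (by rintro rfl; simp at hm; exact hA0 hm)
  have hdA : d ∣ A := ⟨m, hm⟩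
  split_ifs with h
  · have h1 : ∀ s ∈ Hd A d, ps A (k * s) = 1 := by
      intro s hs
      rw [mem_Hd] at hs
      obtain ⟨j, hj⟩ := h
      have : k = ((d : ZMod A)) * (j : ZMod A) := by
        rw [← ZMod.coe_valMinAbs k, hj]; push_cast; rfl
      rw [this, mul_assoc, mul_comm (j : ZMod A) s, ← mul_assoc, hs, zero_mul, ps_zero]
    rw [sum_congr rfl h1, sum_const, card_Hd A d hdA, nsmul_eq_mul, mul_one]
  · have hs0 : (m : ZMod A) ∈ Hd A d := by
      rw [mem_Hd, ← Nat.cast_mul, ← hm, ZMod.natCast_self]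
    have hne : ps A (k * m) ≠ 1 := by
      intro h1
      have h2 := ps_eq_one _ h1
      apply h
      have h3 : ((k.valMinAbs * m : ℤ) : ZMod A) = 0 := by
        push_cast
        exact h2
      rw [ZMod.intCast_zmod_eq_zero_iff_dvd] at h3
      obtain ⟨t, ht⟩ := h3
      refine ⟨t, ?_⟩
      have hm0 : (m : ℤ) ≠ 0 := by
        intro h4
        have : m = 0 := by exact_mod_cast h4
        rw [this, mul_zero] at hm
        exact hA0 hm
      have h5 : (A : ℤ) = d * m := by exact_mod_cast hm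
      rw [h5] at ht
      apply mul_right_cancel₀ hm0
      rw [ht]; ring
    have hshift : ∑ s ∈ Hd A d, ps A (k * s) = ps A (k * m) * ∑ s ∈ Hd A d, ps A (k * s) := by
      rw [mul_sum]
      symm
      apply Finset.sum_bij (fun s _ => (m : ZMod A) + s)
      · intro s hs
        rw [mem_Hd] at hs hs0 ⊢
        rw [mul_add, hs, hs0, add_zero]
      · intro s _ s' _ h
        exact add_left_cancel h
      · intro s hs
        refine ⟨s - m, ?_, by ring⟩
        rw [mem_Hd] at hs hs0 ⊢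
        rw [mul_sub, hs, hs0, sub_zero]
      · intro s _
        rw [← ps_add]
        congr 1
        ring
    have h6 : (ps A (k * m) - 1) * ∑ s ∈ Hd A d, ps A (k * s) = 0 := by
      rw [sub_mul, one_mul, ← hshift, sub_self]
    rcases mul_eq_zero.1 h6 with h7 | h7
    · exact absurd (sub_eq_zero.1 h7) hne
    · exact h7

theorem sum_ps (x : ZMod A) : ∑ k : ZMod A, ps A (k * x) = if x = 0 then (A : ℂ) else 0 := by
  have h1 : Hd A A = univ := by
    ext s
    simp [mem_Hd]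
  have h2 := sum_ps_Hd (A := A) A (dvd_refl A) x
  rw [h1] at h2
  have h3 : ∑ k : ZMod A, ps A (k * x) = ∑ s : ZMod A, ps A (x * s) :=
    sum_congr rfl fun s _ => by rw [mul_comm]
  rw [h3, h2]
  have h4 : (A : ℤ) ∣ x.valMinAbs ↔ x = 0 := by
    rw [← ZMod.intCast_zmod_eq_zero_iff_dvd, ZMod.coe_valMinAbs]
  simp only [h4]

/-- the correlation formula -/
theorem corr (P G : ZMod A → ℂ) (t : ZMod A) :
    (A : ℂ)⁻¹ * ∑ z, P z * G (z + t) = ∑ k, ft A P (-k) * ft A G k * ps A (-(k * t)) := by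
  have hA : (A : ℂ) ≠ 0 := by exact_mod_cast NeZero.ne A
  have h1 : ∀ k : ZMod A, ft A P (-k) * ft A G k * ps A (-(k * t)) =
      (A : ℂ)⁻¹ ^ 2 * ∑ w, ∑ y, P w * G y * ps A (k * (y - w - t)) := by
    intro k
    unfold ft
    have : ∀ (a b : ℂ) (c : ℂ), (A : ℂ)⁻¹ * a * ((A : ℂ)⁻¹ * b) * c = (A : ℂ)⁻¹ ^ 2 * (a * b * c) := by
      intro a b c; ring
    rw [this, sum_mul_sum, sum_mul]
    congr 1
    apply sum_congr rfl
    intro w _
    rw [sum_mul]
    apply sum_congr rfl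
    intro y _
    have e1 : ps A (k * (y - w - t)) = ps A (-k * w) * ps A (k * y) * ps A (-(k * t)) := by
      rw [← ps_add, ← ps_add]; congr 1; ring
    rw [e1]; ring
  rw [sum_congr rfl fun k _ => h1 k, ← mul_sum]
  rw [sum_comm]
  have h2 : ∀ w : ZMod A, ∑ k : ZMod A, ∑ y, P w * G y * ps A (k * (y - w - t)) =
      A * (P w * G (w + t)) := by
    intro w
    rw [sum_comm]
    have h3 : ∀ y : ZMod A, ∑ k : ZMod A, P w * G y * ps A (k * (y - w - t)) =
        if y = w + t then P w * G y * A else 0 := by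
      intro y
      rw [← mul_sum, sum_ps]
      have : (y - w - t = 0) ↔ y = w + t := by
        constructor
        · intro h
          have := sub_eq_zero.1 h
          rw [← this]; ring
        · rintro rfl; ring
      simp only [this]
      split_ifs <;> simp
    rw [sum_congr rfl fun y _ => h3 y, sum_ite_eq' univ (w + t)]
    simp only [mem_univ, if_true]
    ring
  rw [sum_congr rfl fun w _ => h2 w, ← mul_sum]
  field_simp

theorem ft_conj (f : ZMod A → ℂ) (k : ZMod A) :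
    ft A (fun z => (starRingEnd ℂ) (f z)) k = (starRingEnd ℂ) (ft A f (-k)) := by
  unfold ft
  rw [map_mul, map_sum, map_inv₀, Complex.conj_natCast]
  congr 1
  apply sum_congr rfl
  intro z _
  rw [map_mul, ← ps_neg]
  congr 2
  ring

theorem parseval' (f : ZMod A → ℂ) : ∑ k, ‖ft A f k‖ ^ 2 = (A : ℝ)⁻¹ * ∑ z, ‖f z‖ ^ 2 := by
  have h := corr f (fun z => (starRingEnd ℂ) (f z)) 0
  have h1 : ∀ k : ZMod A, ft A f (-k) * ft A (fun z => (starRingEnd ℂ) (f z)) k *
      ps A (-(k * 0)) = ((‖ft A f (-k)‖ ^ 2 : ℝ) : ℂ) := by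
    intro k
    rw [mul_zero, neg_zero, ps_zero, mul_one, ft_conj, Complex.mul_conj,
      Complex.normSq_eq_norm_sq]
  rw [sum_congr rfl fun k _ => h1 k] at h
  have h2 : ∀ z : ZMod A, f z * (starRingEnd ℂ) (f (z + 0)) = ((‖f z‖ ^ 2 : ℝ) : ℂ) := by
    intro z
    rw [add_zero, Complex.mul_conj, Complex.normSq_eq_norm_sq]
  rw [sum_congr rfl fun z _ => h2 z, ← Complex.ofReal_sum, ← Complex.ofReal_sum] at h
  have h3 : ∑ k : ZMod A, ‖ft A f (-k)‖ ^ 2 = ∑ k, ‖ft A f k‖ ^ 2 :=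
    Equiv.sum_comp (Equiv.neg (ZMod A)) fun k => ‖ft A f k‖ ^ 2
  rw [h3] at h
  have h4 : ((A : ℂ))⁻¹ = (((A : ℝ)⁻¹ : ℝ) : ℂ) := by push_cast; rfl
  rw [h4, ← Complex.ofReal_mul] at h
  exact (Complex.ofReal_injective h).symm

theorem parseval_le (f : ZMod A → ℂ) (hf : ∀ z, ‖f z‖ ≤ 1) : ∑ k, ‖ft A f k‖ ^ 2 ≤ 1 := by
  rw [parseval']
  have hA := Apos (A := A)
  rw [inv_mul_eq_div, div_le_one hA]
  calc ∑ z, ‖f z‖ ^ 2 ≤ ∑ _z : ZMod A, (1 : ℝ) := by
        apply sum_le_sum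
        intro z _
        have := hf z
        have h0 := norm_nonneg (f z)
        nlinarith
    _ = A := by simp

end

/-! ## Total variation -/

theorem tv_nonneg (A : ℕ) [NeZero A] (f : ZMod A → ℂ) : 0 ≤ tv A f :=
  sum_nonneg fun _ _ => norm_nonneg _

theorem ps_sub_one (A : ℕ) [NeZero A] (k : ZMod A) :
    4 * |(k.valMinAbs : ℝ)| / A ≤ ‖ps A k - 1‖ := by
  have hA := Apos (A := A)
  set j : ℤ := k.valMinAbs with hj
  have h1 : ps A k = Complex.exp (Complex.I * ((2 * Real.pi * j / A : ℝ) : ℂ)) := by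
    unfold ps
    rw [← ZMod.coe_valMinAbs k, ZMod.stdAddChar_coe, ← hj]
    congr 1
    push_cast
    ring
  have h2 : |(j : ℝ)| ≤ A / 2 := by
    have h3 := ZMod.natAbs_valMinAbs_le k
    rw [← hj] at h3
    have h4 : |j| ≤ (A / 2 : ℕ) := by
      rw [Int.abs_eq_natAbs]; exact_mod_cast h3
    have h5 : |(j : ℝ)| ≤ ((A / 2 : ℕ) : ℝ) := by
      rw [← Int.cast_abs, ← Int.cast_natCast (R := ℝ)]
      exact Int.cast_le.2 h4
    exact h5.trans Nat.cast_div_le
  rw [h1, Complex.norm_exp_I_mul_ofReal_sub_one, norm_mul, Real.norm_eq_abs, Real.norm_eq_abs,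
    abs_of_pos (by norm_num : (0 : ℝ) < 2)]
  have h6 : |2 * Real.pi * j / A / 2| ≤ Real.pi / 2 := by
    have : 2 * Real.pi * j / A / 2 = Real.pi * (j / A) := by ring
    rw [this, abs_mul, abs_of_pos Real.pi_pos, abs_div, abs_of_pos hA]
    have h7 : |(j : ℝ)| / A ≤ 1 / 2 := by
      rw [div_le_iff₀ hA]; linarith
    calc Real.pi * (|(j : ℝ)| / A) ≤ Real.pi * (1 / 2) := by
          have := Real.pi_pos
          gcongr
      _ = Real.pi / 2 := by ring
  have h7 := Real.mul_abs_le_abs_sin h6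
  have h8 : 2 / Real.pi * |2 * Real.pi * j / A / 2| = 2 * |(j : ℝ)| / A := by
    have : 2 * Real.pi * j / A / 2 = Real.pi * (j / A) := by ring
    rw [this, abs_mul, abs_of_pos Real.pi_pos, abs_div, abs_of_pos hA]
    have := Real.pi_pos
    field_simp
  rw [h8] at h7
  calc 4 * |(j : ℝ)| / A = 2 * (2 * |(j : ℝ)| / A) := by ring
    _ ≤ _ := by gcongr

theorem valMinAbs_neg_abs (A : ℕ) [NeZero A] (k : ZMod A) :
    |((-k).valMinAbs : ℝ)| = |(k.valMinAbs : ℝ)| := by
  have h := nrm_neg k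
  unfold nrm at h
  have hA := Apos (A := A)
  field_simp at h
  exact h

theorem ft_le_tv' (A : ℕ) [NeZero A] (f : ZMod A → ℂ) (k : ZMod A) (hk : k ≠ 0) :
    ‖ft A f k‖ ≤ tv A f / (4 * |(k.valMinAbs : ℝ)|) := by
  have hA := Apos (A := A)
  have hj0 : 0 < |(k.valMinAbs : ℝ)| := by
    rw [abs_pos]
    intro h
    apply hk
    have : k.valMinAbs = 0 := by exact_mod_cast h
    rwa [ZMod.valMinAbs_eq_zero] at this
  have h1 : ∑ z, (f (z + 1) - f z) * ps A (k * z) = (ps A (-k) - 1) * ∑ z, f z * ps A (k * z) := by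
    have h2 : ∑ z, f (z + 1) * ps A (k * z) = ps A (-k) * ∑ z, f z * ps A (k * z) := by
      rw [mul_sum, ← Equiv.sum_comp (Equiv.addRight (1 : ZMod A))
        (fun z => ps A (-k) * (f z * ps A (k * z)))]
      apply sum_congr rfl
      intro z _
      simp only [Equiv.coe_addRight]
      have : ps A (k * z) = ps A (-k) * ps A (k * (z + 1)) := by
        rw [← ps_add]; congr 1; ring
      rw [this]; ring
    simp only [sub_mul, sum_sub_distrib, h2, one_mul]
  have h2 : ‖(ps A (-k) - 1) * ∑ z, f z * ps A (k * z)‖ ≤ tv A f := by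
    rw [← h1]
    refine (norm_sum_le _ _).trans ?_
    unfold tv
    apply sum_le_sum
    intro z _
    rw [norm_mul, ps_norm, mul_one]
  rw [norm_mul] at h2
  have h3 := ps_sub_one A (-k)
  rw [valMinAbs_neg_abs] at h3
  unfold ft
  rw [norm_mul, norm_inv, Complex.norm_natCast, le_div_iff₀ (by positivity)]
  set S : ℝ := ‖∑ z, f z * ps A (k * z)‖ with hS
  calc (A : ℝ)⁻¹ * S * (4 * |(k.valMinAbs : ℝ)|) = 4 * |(k.valMinAbs : ℝ)| / A * S := by
        field_simp
    _ ≤ ‖ps A (-k) - 1‖ * S := by gcongr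
    _ ≤ _ := h2

/-- the tail of the Fourier series -/
theorem tail (A : ℕ) [NeZero A] (f : ZMod A → ℂ) (W L : ℝ) (hW : tv A f ≤ W) (hL : 1 ≤ L) :
    ∑ k ∈ univ.filter (fun k : ZMod A => L < |(k.valMinAbs : ℝ)|), ‖ft A f k‖ ^ 2 ≤
      W ^ 2 / (4 * L) := by
  have hW0 : 0 ≤ W := (tv_nonneg A f).trans hW
  set B : Finset (ZMod A) := univ.filter (fun k : ZMod A => L < |(k.valMinAbs : ℝ)|) with hB
  set m := ⌊L⌋₊ with hm
  have hm1 : 1 ≤ m := Nat.one_le_floor_iff _ |>.2 hL |> fun h => h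
  have h1 : ∀ k ∈ B, ‖ft A f k‖ ^ 2 ≤ W ^ 2 / 16 * (((k.valMinAbs.natAbs : ℕ) : ℝ) ^ 2)⁻¹ := by
    intro k hk
    have hk1 := (mem_filter.1 hk).2
    have hk0 : k ≠ 0 := by
      rintro rfl
      rw [ZMod.valMinAbs_zero] at hk1
      norm_num at hk1
      linarith
    have h2 := ft_le_tv' A f k hk0
    have hpos : 0 < |(k.valMinAbs : ℝ)| := by linarith
    have h3 : ((k.valMinAbs.natAbs : ℕ) : ℝ) = |(k.valMinAbs : ℝ)| := by
      rw [Nat.cast_natAbs]; push_cast; rfl
    rw [h3]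
    calc ‖ft A f k‖ ^ 2 ≤ (W / (4 * |(k.valMinAbs : ℝ)|)) ^ 2 := by
          gcongr
          exact h2.trans (by gcongr)
      _ = W ^ 2 / 16 * ((|(k.valMinAbs : ℝ)|) ^ 2)⁻¹ := by
          field_simp
          norm_num
  have h2 : ∑ k ∈ B, (((k.valMinAbs.natAbs : ℕ) : ℝ) ^ 2)⁻¹ ≤ 4 / L := by
    have hmaps : ∀ k ∈ B, k.valMinAbs.natAbs ∈ Ioc m (m + A) := by
      intro k hk
      have hk1 := (mem_filter.1 hk).2
      have h3 : ((k.valMinAbs.natAbs : ℕ) : ℝ) = |(k.valMinAbs : ℝ)| := by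
        rw [Nat.cast_natAbs]; push_cast; rfl
      rw [mem_Ioc]
      constructor
      · rw [hm]
        apply (Nat.floor_lt' (by
          intro h0
          rw [← Nat.cast_eq_zero (R := ℝ), h3] at h0
          linarith)).2
        rw [h3]; exact hk1
      · have := ZMod.natAbs_valMinAbs_le k
        have h4 : A / 2 ≤ A := Nat.div_le_self _ _
        omega
    rw [← sum_fiberwise_of_maps_to hmaps]
    calc ∑ j ∈ Ioc m (m + A), ∑ k ∈ B with k.valMinAbs.natAbs = j,
          (((k.valMinAbs.natAbs : ℕ) : ℝ) ^ 2)⁻¹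
        ≤ ∑ j ∈ Ioc m (m + A), 2 * ((j : ℝ) ^ 2)⁻¹ := by
          apply sum_le_sum
          intro j _
          have h3 : ∑ k ∈ B with k.valMinAbs.natAbs = j, (((k.valMinAbs.natAbs : ℕ) : ℝ) ^ 2)⁻¹ =
              ∑ k ∈ B with k.valMinAbs.natAbs = j, ((j : ℝ) ^ 2)⁻¹ := by
            apply sum_congr rfl
            intro k hk
            rw [(mem_filter.1 hk).2]
          rw [h3, sum_const, nsmul_eq_mul]
          have h4 : (B.filter fun k => k.valMinAbs.natAbs = j).card ≤ 2 := by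
            have h5 : (B.filter fun k => k.valMinAbs.natAbs = j) ⊆
                {((j : ℤ) : ZMod A), ((-(j : ℤ) : ℤ) : ZMod A)} := by
              intro k hk
              have h6 := (mem_filter.1 hk).2
              rw [mem_insert, mem_singleton]
              rcases Int.natAbs_eq k.valMinAbs with h7 | h7
              · left
                rw [← ZMod.coe_valMinAbs k, h7, h6]
              · right
                rw [← ZMod.coe_valMinAbs k, h7, h6]
            exact (card_le_card h5).trans card_le_two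
          have h5 : ((B.filter fun k => k.valMinAbs.natAbs = j).card : ℝ) ≤ 2 := by
            exact_mod_cast h4
          gcongr
      _ = 2 * ∑ j ∈ Ioc m (m + A), ((j : ℝ) ^ 2)⁻¹ := by rw [mul_sum]
      _ ≤ 2 * ((m : ℝ)⁻¹ - ((m + A : ℕ) : ℝ)⁻¹) := by
          gcongr
          exact sum_Ioc_inv_sq_le_sub (by omega) (by omega)
      _ ≤ 2 * (m : ℝ)⁻¹ := by
          have : (0 : ℝ) ≤ ((m + A : ℕ) : ℝ)⁻¹ := by positivity
          linarith
      _ ≤ 4 / L := by
          have h3 : L < m + 1 := Nat.lt_floor_add_one L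
          have h4 : (1 : ℝ) ≤ m := by exact_mod_cast hm1
          rw [← div_eq_mul_inv, div_le_div_iff₀ (by linarith) (by linarith)]
          linarith
  calc ∑ k ∈ B, ‖ft A f k‖ ^ 2 ≤ ∑ k ∈ B, W ^ 2 / 16 * (((k.valMinAbs.natAbs : ℕ) : ℝ) ^ 2)⁻¹ :=
        sum_le_sum h1
    _ = W ^ 2 / 16 * ∑ k ∈ B, (((k.valMinAbs.natAbs : ℕ) : ℝ) ^ 2)⁻¹ := by rw [mul_sum]
    _ ≤ W ^ 2 / 16 * (4 / L) := by gcongr
    _ = W ^ 2 / (4 * L) := by
        field_simp
        norm_num

end H80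

/-- Fourier coefficients of functions of bounded variation -/
theorem ft_le_tv (A : ℕ) [NeZero A] (f : ZMod A → ℂ) (k : ZMod A) (hk : k ≠ 0) :
    ‖ft A f k‖ ≤ tv A f / (4 * |(k.valMinAbs : ℝ)|) := H80.ft_le_tv' A f k hk

end Stz
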