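import Pool.Agent.Helper89.Stz.Defs

/-! # Norm on the discrete circle, subgroup of multiples of `A / d`, cells -/

set_option autoImplicit false

namespace Stz

namespace H80

open Finset

section nrm

variable {A : ℕ} [NeZero A]

theorem Apos : (0 : ℝ) < A := by exact_mod_cast Nat.pos_of_ne_zero (NeZero.ne A)

theorem nrm_nonneg (x : ZMod A) : 0 ≤ nrm A x := div_nonneg (abs_nonneg _) (Nat.cast_nonneg _)

theorem nrm_le_int (t : ℤ) : nrm A (t : ZMod A) ≤ |(t : ℝ)| / A := by
  unfold nrm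
  have hA := Apos (A := A)
  have h1 : ((t : ZMod A).valMinAbs : ZMod A) = (t : ZMod A) := ZMod.coe_valMinAbs _
  have h2 := ZMod.natAbs_min_of_le_div_two A ((t : ZMod A).valMinAbs) t h1
    (ZMod.natAbs_valMinAbs_le _)
  have h3 : |((t : ZMod A).valMinAbs)| ≤ |t| := by
    rw [Int.abs_eq_natAbs, Int.abs_eq_natAbs]
    exact_mod_cast h2
  exact div_le_div_of_nonneg_right (by exact_mod_cast h3) hA.le

theorem nrm_le_of_eq (x : ZMod A) (t : ℤ) (h : x = (t : ZMod A)) : nrm A x ≤ |(t : ℝ)| / A := by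
  rw [h]; exact nrm_le_int t

theorem nrm_add (x y : ZMod A) : nrm A (x + y) ≤ nrm A x + nrm A y := by
  have h := nrm_le_of_eq (x + y) (x.valMinAbs + y.valMinAbs) (by simp)
  refine h.trans ?_
  unfold nrm
  rw [← add_div]
  have hA := Apos (A := A)
  gcongr
  push_cast
  exact abs_add_le _ _

theorem nrm_neg (x : ZMod A) : nrm A (-x) = nrm A x := by
  have key : ∀ x : ZMod A, nrm A (-x) ≤ nrm A x := by
    intro x
    have h := nrm_le_of_eq (-x) (-x.valMinAbs) (by simp)
    refine h.trans ?_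
    unfold nrm
    push_cast
    rw [abs_neg]
  apply le_antisymm (key x)
  have := key (-x)
  rwa [neg_neg] at this

theorem nrm_sub_comm (x y : ZMod A) : nrm A (x - y) = nrm A (y - x) := by
  rw [← nrm_neg, neg_sub]

theorem nrm_sub (x y : ZMod A) : nrm A (x - y) ≤ nrm A x + nrm A y := by
  rw [sub_eq_add_neg]
  refine (nrm_add _ _).trans ?_
  rw [nrm_neg]

theorem nrm_mul (k : ℕ) (x : ZMod A) : nrm A (k * x) ≤ k * nrm A x := by
  have h := nrm_le_of_eq ((k : ZMod A) * x) ((k : ℤ) * x.valMinAbs) (by simp)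
  refine h.trans ?_
  unfold nrm
  push_cast
  rw [abs_mul, abs_of_nonneg (Nat.cast_nonneg (α := ℝ) k), mul_div_assoc]

end nrm

/-- from both denominators: `Δ` is small -/
theorem nrm_coprime' (A : ℕ) [NeZero A] (d1 d2 : ℕ) (h1 : 1 ≤ d1) (h2 : 1 ≤ d2)
    (hc : Nat.Coprime d1 d2) (Δ : ZMod A) (ε1 ε2 : ℝ) (hΔ1 : nrm A (d1 * Δ) ≤ ε1)
    (hΔ2 : nrm A (d2 * Δ) ≤ ε2) (h : ε1 * d2 + ε2 * d1 < 1) : nrm A Δ ≤ ε1 / d1 := by
  have hA := Apos (A := A)
  set u : ℤ := Δ.valMinAbs with hu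
  set r1 : ℤ := ((d1 : ZMod A) * Δ).valMinAbs with hr1
  set r2 : ℤ := ((d2 : ZMod A) * Δ).valMinAbs with hr2
  have e1 : ∃ j1 : ℤ, (d1 : ℤ) * u = r1 + A * j1 := by
    have : (((d1 : ℤ) * u - r1 : ℤ) : ZMod A) = 0 := by
      push_cast
      rw [hu, hr1, ZMod.coe_valMinAbs, ZMod.coe_valMinAbs, sub_self]
    rw [ZMod.intCast_zmod_eq_zero_iff_dvd] at this
    obtain ⟨j, hj⟩ := this
    exact ⟨j, by linarith⟩
  have e2 : ∃ j2 : ℤ, (d2 : ℤ) * u = r2 + A * j2 := by
    have : (((d2 : ℤ) * u - r2 : ℤ) : ZMod A) = 0 := by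
      push_cast
      rw [hu, hr2, ZMod.coe_valMinAbs, ZMod.coe_valMinAbs, sub_self]
    rw [ZMod.intCast_zmod_eq_zero_iff_dvd] at this
    obtain ⟨j, hj⟩ := this
    exact ⟨j, by linarith⟩
  obtain ⟨j1, hj1⟩ := e1
  obtain ⟨j2, hj2⟩ := e2
  have b1 : |(r1 : ℝ)| ≤ ε1 * A := by
    unfold nrm at hΔ1
    rwa [div_le_iff₀ hA] at hΔ1
  have b2 : |(r2 : ℝ)| ≤ ε2 * A := by
    unfold nrm at hΔ2
    rwa [div_le_iff₀ hA] at hΔ2
  have hd1 : (0 : ℝ) < d1 := by exact_mod_cast h1
  have hd2 : (0 : ℝ) < d2 := by exact_mod_cast h2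
  have key : (A : ℤ) * (d2 * j1 - d1 * j2) = d1 * r2 - d2 * r1 := by
    have : (d2 : ℤ) * (d1 * u) = d1 * (d2 * u) := by ring
    rw [hj1, hj2] at this
    linarith
  have hz : (d2 : ℤ) * j1 - d1 * j2 = 0 := by
    by_contra hne
    have h3 : (1 : ℤ) ≤ |(d2 : ℤ) * j1 - d1 * j2| := Int.one_le_abs hne
    have h4 : (1 : ℝ) ≤ |(d2 : ℝ) * j1 - d1 * j2| := by exact_mod_cast h3
    have h5 : (A : ℝ) * |(d2 : ℝ) * j1 - d1 * j2| = |(d1 : ℝ) * r2 - d2 * r1| := by
      have h6 : (A : ℝ) * |(d2 : ℝ) * j1 - d1 * j2| = |(A : ℝ) * ((d2 : ℝ) * j1 - d1 * j2)| := by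
        rw [abs_mul, abs_of_pos hA]
      rw [h6]
      congr 1
      exact_mod_cast key
    have h6 : |(d1 : ℝ) * r2 - d2 * r1| ≤ d1 * (ε2 * A) + d2 * (ε1 * A) := by
      refine (abs_sub _ _).trans ?_
      rw [abs_mul, abs_mul, abs_of_pos hd1, abs_of_pos hd2]
      gcongr
    nlinarith
  have hdvd : (d1 : ℤ) ∣ j1 := by
    have hc' : IsCoprime (d1 : ℤ) (d2 : ℤ) := Nat.isCoprime_iff_coprime.2 hc
    apply hc'.dvd_of_dvd_mul_left
    exact ⟨j2, by linarith⟩
  obtain ⟨j, hj⟩ := hdvd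
  have hr : r1 = d1 * (u - A * j) := by
    rw [hj] at hj1
    linarith
  have hΔ : Δ = ((u - A * j : ℤ) : ZMod A) := by
    push_cast
    rw [hu, ZMod.coe_valMinAbs]
    simp
  refine (nrm_le_of_eq Δ _ hΔ).trans ?_
  rw [div_le_div_iff₀ hA hd1]
  have : |(r1 : ℝ)| = d1 * |((u - A * j : ℤ) : ℝ)| := by
    rw [hr]
    push_cast
    rw [abs_mul, abs_of_pos hd1]
  rw [this] at b1
  linarith

/-! ## The subgroup of elements killed by `d` -/

/-- elements killed by `d` -/
def Hd (A d : ℕ) [NeZero A] : Finset (ZMod A) := univ.filter fun s => (d : ZMod A) * s = 0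

theorem mem_Hd (A d : ℕ) [NeZero A] (s : ZMod A) : s ∈ Hd A d ↔ (d : ZMod A) * s = 0 := by
  simp [Hd]

theorem card_Hd (A d : ℕ) [NeZero A] (hd : d ∣ A) : (Hd A d).card = d := by
  obtain ⟨m, hm⟩ := hd
  have hA0 : A ≠ 0 := NeZero.ne A
  have hd0 : 0 < d := Nat.pos_of_ne_zero (by rintro rfl; simp at hm; exact hA0 hm)
  have hm0 : 0 < m := Nat.pos_of_ne_zero (by rintro rfl; simp at hm; exact hA0 hm)
  have h1 : (range d).card = (Hd A d).card := by
    apply Finset.card_bij (fun j _ => ((j * m : ℕ) : ZMod A))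
    · intro j hj
      rw [mem_Hd, ← Nat.cast_mul, ZMod.natCast_eq_zero_iff, hm]
      exact ⟨j, by ring⟩
    · intro j hj j' hj' h
      rw [mem_range] at hj hj'
      have hlt : j * m < A := by rw [hm]; exact Nat.mul_lt_mul_of_pos_right hj hm0
      have hlt' : j' * m < A := by rw [hm]; exact Nat.mul_lt_mul_of_pos_right hj' hm0
      have := congrArg ZMod.val h
      rw [ZMod.val_cast_of_lt hlt, ZMod.val_cast_of_lt hlt'] at this
      exact Nat.eq_of_mul_eq_mul_right hm0 this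
    · intro s hs
      rw [mem_Hd, ← ZMod.natCast_zmod_val s, ← Nat.cast_mul, ZMod.natCast_eq_zero_iff] at hs
      have h2 : m ∣ s.val := by
        obtain ⟨t, ht⟩ := hs
        refine ⟨t, Nat.eq_of_mul_eq_mul_left hd0 ?_⟩
        rw [ht, hm, mul_assoc]
      obtain ⟨j, hj⟩ := h2
      refine ⟨j, ?_, ?_⟩
      · rw [mem_range]
        have h3 := ZMod.val_lt s
        rw [hj] at h3
        by_contra hge
        push Not at hge
        have : d * m ≤ j * m := Nat.mul_le_mul_right m hge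
        rw [mul_comm m j] at h3
        omega
      · rw [mul_comm, ← hj, ZMod.natCast_zmod_val]
  rw [← h1, card_range]

/-- The shifts `a / q + a' / q'` are the elements killed by `q q'`. -/
theorem sum_sh (A q q' : ℕ) [NeZero A] (hq : q.Prime) (hq' : q'.Prime) (hne : q ≠ q')
    (hqA : q ∣ A) (hqA' : q' ∣ A) (φ : ZMod A → ℝ) :
    ∑ a ∈ range q, ∑ a' ∈ range q', φ (sh A q q' a a') = ∑ s ∈ Hd A (q * q'), φ s := by
  have hcop : Nat.Coprime q q' := (Nat.coprime_primes hq hq').2 hne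
  have hdA : q * q' ∣ A := hcop.mul_dvd_of_dvd_of_dvd hqA hqA'
  have hA0 : A ≠ 0 := NeZero.ne A
  rw [← Finset.sum_product']
  have hinj : Set.InjOn (fun p : ℕ × ℕ => sh A q q' p.1 p.2) (range q ×ˢ range q' : Finset (ℕ × ℕ)) := by
    rintro ⟨a, a'⟩ h1 ⟨b, b'⟩ h2 h
    rw [mem_coe, mem_product, mem_range, mem_range] at h1 h2
    simp only [sh] at h
    obtain ⟨m, hm⟩ := hdA
    have hAq : A / q = q' * m := by
      rw [hm, mul_assoc]; exact Nat.mul_div_cancel_left _ hq.pos
    have hAq' : A / q' = q * m := by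
      rw [hm, mul_comm q q', mul_assoc]; exact Nat.mul_div_cancel_left _ hq'.pos
    rw [hAq, hAq'] at h
    have hm0 : 0 < m := Nat.pos_of_ne_zero (by rintro rfl; simp at hm; exact hA0 hm)
    have h3 : ((A : ℤ)) ∣ ((a * (q' * m) + a' * (q * m) : ℕ) : ℤ) - ((b * (q' * m) + b' * (q * m) : ℕ) : ℤ) := by
      rw [← ZMod.intCast_zmod_eq_zero_iff_dvd]
      push_cast
      push_cast at h
      rw [h, sub_self]
    obtain ⟨t, ht⟩ := h3
    have h4 : ((a : ℤ) - b) * q' + (a' - b') * q = q * q' * t := by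
      have h5 : (m : ℤ) * (((a : ℤ) - b) * q' + (a' - b') * q) = m * (q * q' * t) := by
        have h6 : (A : ℤ) = q * q' * m := by exact_mod_cast hm
        rw [h6] at ht
        push_cast at ht
        linarith
      exact mul_left_cancel₀ (by exact_mod_cast hm0.ne') h5
    have hcz : IsCoprime (q : ℤ) (q' : ℤ) := Nat.isCoprime_iff_coprime.2 hcop
    have h5 : (q : ℤ) ∣ (a : ℤ) - b := by
      apply hcz.dvd_of_dvd_mul_right
      exact ⟨q' * t - (a' - b'), by linarith⟩
    have h6 : (q' : ℤ) ∣ (a' : ℤ) - b' := by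
      apply hcz.symm.dvd_of_dvd_mul_right
      exact ⟨q * t - (a - b), by linarith⟩
    have h7 : (a : ℤ) = b := by
      obtain ⟨k, hk⟩ := h5
      have hk0 : k = 0 := by
        by_contra hk0
        have h8 : (1 : ℤ) ≤ |k| := Int.one_le_abs hk0
        have h9 : |(a : ℤ) - b| < q := by
          rw [abs_lt]; constructor <;> omega
        rw [hk, abs_mul, Int.abs_natCast] at h9
        nlinarith [(by exact_mod_cast hq.pos : (0 : ℤ) < q)]
      rw [hk0] at hk
      linarith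
    have h8 : (a' : ℤ) = b' := by
      obtain ⟨k, hk⟩ := h6
      have hk0 : k = 0 := by
        by_contra hk0
        have h8 : (1 : ℤ) ≤ |k| := Int.one_le_abs hk0
        have h9 : |(a' : ℤ) - b'| < q' := by
          rw [abs_lt]; constructor <;> omega
        rw [hk, abs_mul, Int.abs_natCast] at h9
        nlinarith [(by exact_mod_cast hq'.pos : (0 : ℤ) < q')]
      rw [hk0] at hk
      linarith
    have h9 : a = b := by exact_mod_cast h7
    have h10 : a' = b' := by exact_mod_cast h8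
    rw [h9, h10]
  have himg : (range q ×ˢ range q').image (fun p : ℕ × ℕ => sh A q q' p.1 p.2) = Hd A (q * q') := by
    apply Finset.eq_of_subset_of_card_le
    · intro s hs
      obtain ⟨⟨a, a'⟩, -, rfl⟩ := mem_image.1 hs
      simp only [sh]
      rw [mem_Hd, ← Nat.cast_mul, ZMod.natCast_eq_zero_iff]
      obtain ⟨m, hm⟩ := hqA
      obtain ⟨m', hm'⟩ := hqA'
      have e1 : A / q = m := by rw [hm]; exact Nat.mul_div_cancel_left _ hq.pos
      have e2 : A / q' = m' := by rw [hm']; exact Nat.mul_div_cancel_left _ hq'.pos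
      rw [e1, e2]
      refine ⟨q' * a + q * a', ?_⟩
      calc q * q' * (a * m + a' * m') = q' * a * (q * m) + q * a' * (q' * m') := by ring
        _ = q' * a * A + q * a' * A := by rw [← hm, ← hm']
        _ = A * (q' * a + q * a') := by ring
    · rw [card_image_of_injOn hinj, card_product, card_range, card_range, card_Hd A _ hdA]
  rw [← himg, sum_image hinj]

/-! ## Cells -/

/-- the cell of `y`, one of `M` -/
def cell (A M : ℕ) [NeZero A] (y : ZMod A) : ZMod M := ((y.val * M / A : ℕ) : ZMod M)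

theorem cell_same (A M : ℕ) [NeZero A] (hM : 1 ≤ M) (y y' : ZMod A)
    (h : cell A M y = cell A M y') : nrm A (y - y') ≤ 1 / M := by
  haveI : NeZero M := ⟨by omega⟩
  have hA0 : 0 < A := Nat.pos_of_ne_zero (NeZero.ne A)
  have hA := Apos (A := A)
  have hM' : (0 : ℝ) < M := by exact_mod_cast hM
  have hlt : ∀ y : ZMod A, y.val * M / A < M := by
    intro y
    rw [Nat.div_lt_iff_lt_mul hA0, mul_comm M A]
    exact Nat.mul_lt_mul_of_pos_right (ZMod.val_lt y) (by omega)
  have h1 : y.val * M / A = y'.val * M / A := by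
    have := congrArg ZMod.val h
    unfold cell at this
    rwa [ZMod.val_cast_of_lt (hlt y), ZMod.val_cast_of_lt (hlt y')] at this
  have h2 : y - y' = (((y.val : ℤ) - y'.val : ℤ) : ZMod A) := by
    push_cast
    rw [ZMod.natCast_zmod_val, ZMod.natCast_zmod_val]
  refine (nrm_le_of_eq _ _ h2).trans ?_
  rw [div_le_div_iff₀ hA hM', one_mul]
  have h3 := Nat.div_add_mod (y.val * M) A
  have h4 := Nat.div_add_mod (y'.val * M) A
  have h5 := Nat.mod_lt (y.val * M) hA0
  have h6 := Nat.mod_lt (y'.val * M) hA0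
  rw [h1] at h3
  have h7 : |((y.val : ℤ) - y'.val) * M| ≤ A := by
    rw [abs_le]
    constructor
    · have : ((y.val : ℤ) * M) + A ≥ (y'.val : ℤ) * M := by
        have : y'.val * M ≤ y.val * M + A := by omega
        exact_mod_cast this
      linarith
    · have : ((y'.val : ℤ) * M) + A ≥ (y.val : ℤ) * M := by
        have : y.val * M ≤ y'.val * M + A := by omega
        exact_mod_cast this
      linarith
  rw [abs_mul, Int.abs_natCast] at h7
  exact_mod_cast h7

theorem cell_near (A M : ℕ) [NeZero A] (hM : 1 ≤ M) (γ : ℝ) (hγ : M * γ ≤ 1) (y y' : ZMod A)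
    (h : nrm A (y' - y) ≤ γ) :
    cell A M y' ∈ ({cell A M y - 1, cell A M y, cell A M y + 1} : Finset (ZMod M)) := by
  have hA0 : 0 < A := Nat.pos_of_ne_zero (NeZero.ne A)
  have hA := Apos (A := A)
  have hM' : (0 : ℝ) < M := by exact_mod_cast hM
  set t : ℤ := (y' - y).valMinAbs with ht
  have h1 : |t| * M ≤ A := by
    unfold nrm at h
    rw [div_le_iff₀ hA] at h
    have h2 : |(t : ℝ)| * M ≤ A := by
      calc |(t : ℝ)| * M ≤ (γ * A) * M := by gcongr
        _ = (M * γ) * A := by ring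
        _ ≤ 1 * A := by gcongr
        _ = A := one_mul _
    exact_mod_cast h2
  have h2 : ∃ j : ℤ, (y'.val : ℤ) = y.val + t + A * j := by
    have : (((y'.val : ℤ) - y.val - t : ℤ) : ZMod A) = 0 := by
      push_cast
      rw [ZMod.natCast_zmod_val, ZMod.natCast_zmod_val, ht, ZMod.coe_valMinAbs]
      ring
    rw [ZMod.intCast_zmod_eq_zero_iff_dvd] at this
    obtain ⟨j, hj⟩ := this
    exact ⟨j, by linarith⟩
  obtain ⟨j, hj⟩ := h2
  set a : ℤ := ((y.val * M / A : ℕ) : ℤ) with ha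
  set a' : ℤ := ((y'.val * M / A : ℕ) : ℤ) with ha'
  have h3 : (A : ℤ) * a + ((y.val * M % A : ℕ) : ℤ) = y.val * M := by
    rw [ha]; exact_mod_cast Nat.div_add_mod (y.val * M) A
  have h4 : (A : ℤ) * a' + ((y'.val * M % A : ℕ) : ℤ) = y'.val * M := by
    rw [ha']; exact_mod_cast Nat.div_add_mod (y'.val * M) A
  have h5 : ((y.val * M % A : ℕ) : ℤ) < A := by exact_mod_cast Nat.mod_lt (y.val * M) hA0
  have h6 : ((y'.val * M % A : ℕ) : ℤ) < A := by exact_mod_cast Nat.mod_lt (y'.val * M) hA0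
  have h5' : (0 : ℤ) ≤ ((y.val * M % A : ℕ) : ℤ) := Int.natCast_nonneg _
  have h6' : (0 : ℤ) ≤ ((y'.val * M % A : ℕ) : ℤ) := Int.natCast_nonneg _
  rw [hj] at h4
  have h7 := abs_le.1 (show |t * M| ≤ A by rw [abs_mul, Int.abs_natCast]; exact h1)
  have hAz : (0 : ℤ) < A := by exact_mod_cast hA0
  have h8 : a' - a - M * j < 2 := by
    by_contra hge
    push Not at hge
    have : (A : ℤ) * 2 ≤ A * (a' - a - M * j) := by
      exact mul_le_mul_of_nonneg_left hge hAz.le
    nlinarith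
  have h9 : -2 < a' - a - M * j := by
    by_contra hge
    push Not at hge
    have : (A : ℤ) * (a' - a - M * j) ≤ A * (-2) := by
      exact mul_le_mul_of_nonneg_left hge hAz.le
    nlinarith
  have hc : (cell A M y') = cell A M y + ((a' - a - M * j : ℤ) : ZMod M) := by
    unfold cell
    have e1 : ((y'.val * M / A : ℕ) : ZMod M) = ((a' : ℤ) : ZMod M) := by rw [ha', Int.cast_natCast]
    have e2 : ((y.val * M / A : ℕ) : ZMod M) = ((a : ℤ) : ZMod M) := by rw [ha, Int.cast_natCast]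
    rw [e1, e2]
    push_cast
    simp
  rw [hc]
  simp only [mem_insert, mem_singleton]
  obtain h | h | h : a' - a - M * j = -1 ∨ a' - a - M * j = 0 ∨ a' - a - M * j = 1 := by omega
  · left; rw [h]; push_cast; ring
  · right; left; rw [h]; simp
  · right; right; rw [h]; simp

end H80

end Stz
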