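import Pool.Agent.Helper80.Stz.Nrm

/-! # Counting rectangles (module B3) -/

set_option autoImplicit false

namespace Stz

open Finset

/-- from both denominators: `Δ` is small -/
theorem nrm_coprime (A : ℕ) [NeZero A] (d1 d2 : ℕ) (h1 : 1 ≤ d1) (h2 : 1 ≤ d2)
    (hc : Nat.Coprime d1 d2) (Δ : ZMod A) (ε1 ε2 : ℝ) (hΔ1 : nrm A (d1 * Δ) ≤ ε1)
    (hΔ2 : nrm A (d2 * Δ) ≤ ε2) (h : ε1 * d2 + ε2 * d1 < 1) : nrm A Δ ≤ ε1 / d1 :=
  H80.nrm_coprime' A d1 d2 h1 h2 hc Δ ε1 ε2 hΔ1 hΔ2 h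

namespace H80

/-- Cauchy-Schwarz for the fibres of a map. -/
theorem cs_card {α β : Type*} [DecidableEq α] [DecidableEq β] (X : Finset α) (f : α → β) :
    (X.card : ℝ) ^ 2 ≤ ((X.image f).card : ℝ) *
      ((X ×ˢ X).filter fun w => f w.1 = f w.2).card := by
  have h1 : (X.card : ℝ) = ∑ b ∈ X.image f, ((X.filter fun a => f a = b).card : ℝ) := by
    exact_mod_cast card_eq_sum_card_image f X
  have h2 : (((X ×ˢ X).filter fun w => f w.1 = f w.2).card : ℝ) =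
      ∑ b ∈ X.image f, ((X.filter fun a => f a = b).card : ℝ) ^ 2 := by
    have h3 : ((X ×ˢ X).filter fun w => f w.1 = f w.2).card =
        ∑ b ∈ X.image f, (((X ×ˢ X).filter fun w => f w.1 = f w.2).filter
          fun w => f w.1 = b).card := by
      apply card_eq_sum_card_fiberwise
      intro w hw
      have := (mem_filter.1 hw).1
      exact mem_image_of_mem f (mem_product.1 this).1
    rw [h3]
    push_cast
    apply sum_congr rfl
    intro b _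
    have h4 : (((X ×ˢ X).filter fun w => f w.1 = f w.2).filter fun w => f w.1 = b) =
        (X.filter fun a => f a = b) ×ˢ (X.filter fun a => f a = b) := by
      ext ⟨u, v⟩
      simp only [mem_filter, mem_product]
      constructor
      · rintro ⟨⟨⟨h1, h2⟩, h3⟩, h4⟩
        exact ⟨⟨h1, h4⟩, h2, by rw [← h3, h4]⟩
      · rintro ⟨⟨h1, h2⟩, h3, h4⟩
        exact ⟨⟨⟨h1, h3⟩, by rw [h2, h4]⟩, h2⟩
    rw [h4, card_product]
    push_cast
    ring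
  rw [h1, h2]
  exact sq_sum_le_card_mul_sum_sq

end H80

/-- number of `4`-cycles -/
theorem c4_count {U L M : Type*} [DecidableEq U] [DecidableEq L] [DecidableEq M] (S : Finset U)
    (l : U → L) (m : U → M) :
    (S.card : ℝ) ^ 4 ≤ ((S.image l).card : ℝ) ^ 2 * ((S.image m).card : ℝ) ^ 2 *
      (((S ×ˢ S) ×ˢ (S ×ˢ S)).filter fun w => l w.1.1 = l w.1.2 ∧ l w.2.1 = l w.2.2 ∧
        m w.1.1 = m w.2.1 ∧ m w.1.2 = m w.2.2).card := by
  set P := (S ×ˢ S).filter fun w => l w.1 = l w.2 with hP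
  have h1 := H80.cs_card S l
  have h2 := H80.cs_card P (fun w => (m w.1, m w.2))
  have h3 : ((P ×ˢ P).filter fun w => (fun w : U × U => (m w.1, m w.2)) w.1 =
      (fun w : U × U => (m w.1, m w.2)) w.2) = (((S ×ˢ S) ×ˢ (S ×ˢ S)).filter fun w =>
        l w.1.1 = l w.1.2 ∧ l w.2.1 = l w.2.2 ∧ m w.1.1 = m w.2.1 ∧ m w.1.2 = m w.2.2) := by
    ext ⟨⟨a, b⟩, ⟨c, d⟩⟩
    simp only [hP, mem_filter, mem_product, Prod.mk.injEq]
    tauto
  rw [h3] at h2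
  have h4 : ((P.image fun w => (m w.1, m w.2)).card : ℝ) ≤ ((S.image m).card : ℝ) ^ 2 := by
    have : (P.image fun w => (m w.1, m w.2)) ⊆ (S.image m) ×ˢ (S.image m) := by
      intro w hw
      obtain ⟨v, hv, rfl⟩ := mem_image.1 hw
      have h5 := mem_product.1 (mem_filter.1 hv).1
      exact mem_product.2 ⟨mem_image_of_mem m h5.1, mem_image_of_mem m h5.2⟩
    have h6 := card_le_card this
    rw [card_product] at h6
    have h7 : ((P.image fun w => (m w.1, m w.2)).card : ℝ) ≤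
        (((S.image m).card * (S.image m).card : ℕ) : ℝ) := by exact_mod_cast h6
    rw [Nat.cast_mul] at h7
    rw [sq]
    exact h7
  set C : ℝ := ((((S ×ˢ S) ×ˢ (S ×ˢ S)).filter fun w =>
        l w.1.1 = l w.1.2 ∧ l w.2.1 = l w.2.2 ∧ m w.1.1 = m w.2.1 ∧ m w.1.2 = m w.2.2).card : ℝ)
    with hC
  calc (S.card : ℝ) ^ 4 = ((S.card : ℝ) ^ 2) ^ 2 := by ring
    _ ≤ (((S.image l).card : ℝ) * (P.card : ℝ)) ^ 2 := by gcongr
    _ = ((S.image l).card : ℝ) ^ 2 * (P.card : ℝ) ^ 2 := by ring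
    _ ≤ ((S.image l).card : ℝ) ^ 2 * (((P.image fun w => (m w.1, m w.2)).card : ℝ) * C) := by
        gcongr
    _ ≤ ((S.image l).card : ℝ) ^ 2 * (((S.image m).card : ℝ) ^ 2 * C) := by
        gcongr
    _ = _ := by ring

namespace H80

/-- the degree of `z` in the direction `d` -/
noncomputable def dgd (A d : ℕ) [NeZero A] (x : ZMod A → ZMod A) (R : Finset (ZMod A)) (γ : ℝ) (z : ZMod A) :
    ℕ := by
  classical exact ((Hd A d).filter fun s => z + s ∈ R ∧ nrm A (d * (x (z + s) - x z)) ≤ γ).card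

theorem dgd_le (A d : ℕ) [NeZero A] (hd : d ∣ A) (x : ZMod A → ZMod A) (R : Finset (ZMod A))
    (γ : ℝ) (z : ZMod A) : dgd A d x R γ z ≤ d := by
  classical
  unfold dgd
  exact (card_le_card (filter_subset _ _)).trans (card_Hd A d hd).le

/-- the coset of `z` -/
def cos (A d : ℕ) [NeZero A] (κ : ZMod A) : Finset (ZMod A) :=
  univ.filter fun z => (d : ZMod A) * z = κ

theorem card_cos (A d : ℕ) [NeZero A] (hd : d ∣ A) (κ : ZMod A) : (cos A d κ).card ≤ d := by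
  by_cases h : (cos A d κ).Nonempty
  · obtain ⟨z0, hz0⟩ := h
    have hz0' : (d : ZMod A) * z0 = κ := (mem_filter.1 hz0).2
    refine le_of_le_of_eq ?_ (card_Hd A d hd)
    apply card_le_card_of_injOn (fun z => z - z0)
    · intro z hz
      have hz' : (d : ZMod A) * z = κ := (mem_filter.1 hz).2
      rw [mem_coe, mem_Hd, mul_sub, hz', hz0', sub_self]
    · intro z _ z' _ h
      exact sub_left_injective h
  · rw [not_nonempty_iff_eq_empty.1 h]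
    simp

/-- few cells in a coset -/
theorem cells_le (A M d : ℕ) [NeZero A] (hd : d ∣ A) (hd0 : 1 ≤ d) (hM : 1 ≤ M)
    (x : ZMod A → ZMod A) (R E : Finset (ZMod A)) (γ τ : ℝ) (hγ : M * γ ≤ 1)
    (hE : ∀ z ∈ E, τ / 2 * d ≤ dgd A d x R γ z) (κ : ZMod A) :
    (((E.filter fun z => (d : ZMod A) * z = κ).image fun z => cell A M (d * x z)).card : ℝ) * τ
      ≤ 6 := by
  classical
  set Cc := (E.filter fun z => (d : ZMod A) * z = κ).image fun z => cell A M (d * x z) with hCc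
  set nbr : ZMod M → Finset (ZMod M) := fun c => {c - 1, c, c + 1} with hnbr
  have h1 : ∀ c ∈ Cc, τ / 2 * d ≤
      (((cos A d κ).filter fun z => cell A M (d * x z) ∈ nbr c).card : ℝ) := by
    intro c hc
    obtain ⟨z, hz, rfl⟩ := mem_image.1 hc
    obtain ⟨hzE, hzκ⟩ := mem_filter.1 hz
    refine (hE z hzE).trans ?_
    unfold dgd
    rw [Nat.cast_le]
    apply card_le_card_of_injOn (fun s => z + s)
    · intro s hs
      obtain ⟨hs1, hs2, hs3⟩ := mem_filter.1 hs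
      rw [mem_Hd] at hs1
      rw [mem_coe, mem_filter]
      refine ⟨mem_filter.2 ⟨mem_univ _, by rw [mul_add, hs1, add_zero, hzκ]⟩, ?_⟩
      rw [mul_sub] at hs3
      exact cell_near A M hM γ hγ _ _ hs3
    · intro s _ s' _ h
      exact add_left_cancel h
  have h2 : ∑ c ∈ Cc, ((cos A d κ).filter fun z => cell A M (d * x z) ∈ nbr c).card ≤ 3 * d := by
    calc ∑ c ∈ Cc, ((cos A d κ).filter fun z => cell A M (d * x z) ∈ nbr c).card
        = ∑ c ∈ Cc, ∑ z ∈ cos A d κ, (if cell A M (d * x z) ∈ nbr c then 1 else 0) := by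
          apply sum_congr rfl
          intro c _
          rw [card_filter]
      _ = ∑ z ∈ cos A d κ, ∑ c ∈ Cc, (if cell A M (d * x z) ∈ nbr c then 1 else 0) := sum_comm
      _ ≤ ∑ z ∈ cos A d κ, 3 := by
          apply sum_le_sum
          intro z _
          rw [← card_filter]
          have : (Cc.filter fun c => cell A M (d * x z) ∈ nbr c) ⊆
              {cell A M (d * x z) + 1, cell A M (d * x z), cell A M (d * x z) - 1} := by
            intro c hc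
            have := (mem_filter.1 hc).2
            simp only [hnbr, mem_insert, mem_singleton] at this ⊢
            rcases this with h | h | h
            · left; rw [h]; ring
            · right; left; rw [h]
            · right; right; rw [h]; ring
          refine (card_le_card this).trans card_le_three
      _ = (cos A d κ).card * 3 := by rw [sum_const, smul_eq_mul]
      _ ≤ 3 * d := by
          have := card_cos A d hd κ
          omega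
  have h3 : (Cc.card : ℝ) * (τ / 2 * d) ≤ 3 * d := by
    calc (Cc.card : ℝ) * (τ / 2 * d) = ∑ _c ∈ Cc, (τ / 2 * d) := by
          rw [sum_const, nsmul_eq_mul]
      _ ≤ ∑ c ∈ Cc, (((cos A d κ).filter fun z => cell A M (d * x z) ∈ nbr c).card : ℝ) :=
          sum_le_sum h1
      _ ≤ 3 * d := by exact_mod_cast h2
  have hd' : (0 : ℝ) < d := by exact_mod_cast hd0
  have h4 : (Cc.card : ℝ) * τ * d ≤ 6 * d := by nlinarith
  exact le_of_mul_le_mul_right h4 hd'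

theorem card_cos_eq (A d : ℕ) [NeZero A] (hd : d ∣ A) (z0 : ZMod A) :
    (cos A d (d * z0)).card = d := by
  apply le_antisymm (card_cos A d hd _)
  refine le_of_eq_of_le (card_Hd A d hd).symm ?_
  apply card_le_card_of_injOn (fun s => z0 + s)
  · intro s hs
    rw [mem_coe, mem_Hd] at hs
    exact mem_filter.2 ⟨mem_univ _, by rw [mul_add, hs, add_zero]⟩
  · intro s _ s' _ h
    exact add_left_cancel h

/-- number of cosets -/
theorem card_mul_image (A d : ℕ) [NeZero A] (hd : d ∣ A) :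
    ((univ : Finset (ZMod A)).image fun z => (d : ZMod A) * z).card * d = A := by
  have h1 := card_eq_sum_card_image (fun z : ZMod A => (d : ZMod A) * z) univ
  have h2 : ∑ b ∈ (univ : Finset (ZMod A)).image fun z => (d : ZMod A) * z,
      ((univ : Finset (ZMod A)).filter fun a => (d : ZMod A) * a = b).card =
      ∑ _b ∈ (univ : Finset (ZMod A)).image fun z => (d : ZMod A) * z, d := by
    apply sum_congr rfl
    intro b hb
    obtain ⟨z0, -, rfl⟩ := mem_image.1 hb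
    exact card_cos_eq A d hd z0
  rw [h2, sum_const, smul_eq_mul, card_univ, ZMod.card] at h1
  exact h1.symm

/-- labels -/
def lab (A M d : ℕ) [NeZero A] (x : ZMod A → ZMod A) (z : ZMod A) : ZMod A × ZMod M :=
  ((d : ZMod A) * z, cell A M (d * x z))

theorem card_lab (A M d : ℕ) [NeZero A] (hd : d ∣ A) (hd0 : 1 ≤ d) (hM : 1 ≤ M)
    (x : ZMod A → ZMod A) (R E : Finset (ZMod A)) (γ τ : ℝ) (hτ : 0 ≤ τ) (hγ : M * γ ≤ 1)
    (hE : ∀ z ∈ E, τ / 2 * d ≤ dgd A d x R γ z) :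
    ((E.image (lab A M d x)).card : ℝ) * τ * d ≤ 6 * A := by
  classical
  set K := (univ : Finset (ZMod A)).image fun z => (d : ZMod A) * z with hK
  set Cc : ZMod A → Finset (ZMod M) := fun κ =>
    (E.filter fun z => (d : ZMod A) * z = κ).image fun z => cell A M (d * x z) with hCc
  have h1 : E.image (lab A M d x) ⊆ K.biUnion fun κ => (Cc κ).image fun c => (κ, c) := by
    intro w hw
    obtain ⟨z, hz, rfl⟩ := mem_image.1 hw
    rw [mem_biUnion]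
    refine ⟨(d : ZMod A) * z, mem_image_of_mem _ (mem_univ _), ?_⟩
    exact mem_image.2 ⟨cell A M (d * x z), mem_image.2 ⟨z, mem_filter.2 ⟨hz, rfl⟩, rfl⟩, rfl⟩
  have h2 : ((E.image (lab A M d x)).card : ℝ) ≤ ∑ κ ∈ K, ((Cc κ).card : ℝ) := by
    have h3 := (card_le_card h1).trans card_biUnion_le
    have h4 : ∑ κ ∈ K, ((Cc κ).image fun c => (κ, c)).card ≤ ∑ κ ∈ K, (Cc κ).card :=
      sum_le_sum fun κ _ => card_image_le
    exact_mod_cast h3.trans h4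
  have h3 : ∀ κ ∈ K, ((Cc κ).card : ℝ) * τ ≤ 6 := fun κ _ =>
    cells_le A M d hd hd0 hM x R E γ τ hγ hE κ
  have h4 : (K.card : ℝ) * d = A := by exact_mod_cast card_mul_image A d hd
  calc ((E.image (lab A M d x)).card : ℝ) * τ * d
      ≤ (∑ κ ∈ K, ((Cc κ).card : ℝ)) * τ * d := by gcongr
    _ = (∑ κ ∈ K, ((Cc κ).card : ℝ) * τ) * d := by rw [sum_mul]
    _ ≤ (∑ _κ ∈ K, (6 : ℝ)) * d := by
        gcongr with κ hκ
        exact h3 κ hκ
    _ = 6 * A := by rw [sum_const, nsmul_eq_mul, ← h4]; ring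

theorem card_lab2 (A M1 M d1 d : ℕ) [NeZero A] (hd1 : d1 ∣ A) (hd : d ∣ A) (hd0 : 1 ≤ d)
    (hM : 1 ≤ M) (x : ZMod A → ZMod A) (R E : Finset (ZMod A)) (γ τ : ℝ) (hτ : 0 ≤ τ)
    (hγ : M * γ ≤ 1) (hE : ∀ z ∈ E, τ / 2 * d ≤ dgd A d x R γ z) :
    (((((E ×ˢ E).filter fun w => lab A M1 d1 x w.1 = lab A M1 d1 x w.2).image fun w =>
      (lab A M d x w.1, lab A M d x w.2)).card : ℕ) : ℝ) * τ ^ 2 * d ≤ 36 * A * d1 := by
  classical
  set K := (univ : Finset (ZMod A)).image fun z => (d : ZMod A) * z with hK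
  set Cc : ZMod A → Finset (ZMod M) := fun κ =>
    (E.filter fun z => (d : ZMod A) * z = κ).image fun z => cell A M (d * x z) with hCc
  set Im := (((E ×ˢ E).filter fun w => lab A M1 d1 x w.1 = lab A M1 d1 x w.2).image fun w =>
      (lab A M d x w.1, lab A M d x w.2)) with hIm
  have h1 : Im ⊆ (K ×ˢ Hd A d1).biUnion fun q => ((Cc q.1) ×ˢ (Cc (q.1 + d * q.2))).image
      fun c => ((q.1, c.1), (q.1 + d * q.2, c.2)) := by
    intro w hw
    obtain ⟨⟨z, z'⟩, hz, rfl⟩ := mem_image.1 hw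
    obtain ⟨hzE, hl⟩ := mem_filter.1 hz
    rw [mem_product] at hzE
    simp only [lab, Prod.mk.injEq] at hl
    rw [mem_biUnion]
    have e1 : (d : ZMod A) * z + d * (z' - z) = d * z' := by ring
    refine ⟨((d : ZMod A) * z, z' - z), mem_product.2 ⟨mem_image_of_mem _ (mem_univ _), ?_⟩, ?_⟩
    · rw [mem_Hd, mul_sub, ← hl.1, sub_self]
    · refine mem_image.2 ⟨(cell A M (d * x z), cell A M (d * x z')), ?_, ?_⟩
      · rw [mem_product]
        refine ⟨mem_image.2 ⟨z, mem_filter.2 ⟨hzE.1, rfl⟩, rfl⟩, ?_⟩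
        refine mem_image.2 ⟨z', mem_filter.2 ⟨hzE.2, ?_⟩, rfl⟩
        simp only [e1]
      · simp only [lab, e1]
  have h2 : (Im.card : ℝ) ≤ ∑ q ∈ K ×ˢ Hd A d1,
      (((Cc q.1).card : ℝ) * ((Cc (q.1 + d * q.2)).card : ℝ)) := by
    have h3 := (card_le_card h1).trans card_biUnion_le
    have h4 : ∑ q ∈ K ×ˢ Hd A d1, (((Cc q.1) ×ˢ (Cc (q.1 + d * q.2))).image
      fun c => ((q.1, c.1), (q.1 + d * q.2, c.2))).card ≤
        ∑ q ∈ K ×ˢ Hd A d1, (Cc q.1).card * (Cc (q.1 + d * q.2)).card := by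
      apply sum_le_sum
      intro q _
      refine card_image_le.trans ?_
      rw [card_product]
    exact_mod_cast h3.trans h4
  have h3 : ∀ κ, ((Cc κ).card : ℝ) * τ ≤ 6 := fun κ =>
    cells_le A M d hd hd0 hM x R E γ τ hγ hE κ
  have h4 : (K.card : ℝ) * d = A := by exact_mod_cast card_mul_image A d hd
  calc (Im.card : ℝ) * τ ^ 2 * d
      ≤ (∑ q ∈ K ×ˢ Hd A d1, (((Cc q.1).card : ℝ) * ((Cc (q.1 + d * q.2)).card : ℝ))) * τ ^ 2 * d
        := by gcongr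
    _ = (∑ q ∈ K ×ˢ Hd A d1, (((Cc q.1).card : ℝ) * τ) * (((Cc (q.1 + d * q.2)).card : ℝ) * τ)) * d
        := by
          rw [sum_mul]
          congr 1
          apply sum_congr rfl
          intro q _
          ring
    _ ≤ (∑ _q ∈ K ×ˢ Hd A d1, (6 : ℝ) * 6) * d := by
        gcongr with q hq
        · exact h3 _
        · exact h3 _
    _ = 36 * A * d1 := by
        rw [sum_const, nsmul_eq_mul, card_product, card_Hd A d1 hd1, ← h4]
        push_cast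
        ring

/-- the good triples -/
noncomputable def good (A d1 d2 : ℕ) [NeZero A] (x : ZMod A → ZMod A) (E : Finset (ZMod A))
    (γ1 γ2 : ℝ) : Finset ((ZMod A × ZMod A) × ZMod A) := by
  classical
  exact ((Hd A d1 ×ˢ Hd A d2) ×ˢ univ).filter fun w =>
    (w.2 ∈ E ∧ w.2 + w.1.1 ∈ E ∧ w.2 + w.1.2 ∈ E ∧ w.2 + w.1.1 + w.1.2 ∈ E) ∧
    nrm A (d1 * (x w.2 - x (w.2 + w.1.1) - x (w.2 + w.1.2) + x (w.2 + w.1.1 + w.1.2))) ≤ 4 * γ1 ∧
    nrm A (d2 * (x w.2 - x (w.2 + w.1.1) - x (w.2 + w.1.2) + x (w.2 + w.1.1 + w.1.2))) ≤ 4 * γ2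

theorem good_card (A d1 d2 M1 M2 : ℕ) [NeZero A] (hd1 : d1 ∣ A) (hd2 : d2 ∣ A) (h1 : 1 ≤ d1)
    (h2 : 1 ≤ d2) (hcop : Nat.Coprime d1 d2) (hM1 : 1 ≤ M1) (hM2 : 1 ≤ M2)
    (x : ZMod A → ZMod A) (R E : Finset (ZMod A)) (γ1 γ2 τ : ℝ) (hτ : 0 ≤ τ)
    (hγ1 : M1 * γ1 ≤ 1) (hγ2 : M2 * γ2 ≤ 1) (hγ1' : 1 / (M1 : ℝ) ≤ 2 * γ1)
    (hγ2' : 1 / (M2 : ℝ) ≤ 2 * γ2)
    (hE1 : ∀ z ∈ E, τ / 2 * d1 ≤ dgd A d1 x R γ1 z) (hE2 : ∀ z ∈ E, τ / 2 * d2 ≤ dgd A d2 x R γ2 z) :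
    (E.card : ℝ) ^ 4 * τ ^ 4 * (d1 * d2) ≤ 1296 * (A : ℝ) ^ 3 * (good A d1 d2 x E γ1 γ2).card := by
  classical
  set l := lab A M1 d1 x with hl
  set m := lab A M2 d2 x with hm
  set P := (E ×ˢ E).filter fun w => l w.1 = l w.2 with hP
  have c1 := cs_card E l
  have c2 := cs_card P (fun w => (m w.1, m w.2))
  have b1 := card_lab A M1 d1 hd1 h1 hM1 x R E γ1 τ hτ hγ1 hE1
  have b2 := card_lab2 A M1 M2 d1 d2 hd1 hd2 h2 hM2 x R E γ2 τ hτ hγ2 hE2
  set L1 : ℝ := ((E.image l).card : ℝ) with hL1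
  set L2 : ℝ := ((P.image fun w => (m w.1, m w.2)).card : ℝ) with hL2
  set Q4 := (P ×ˢ P).filter fun w => (fun w : ZMod A × ZMod A => (m w.1, m w.2)) w.1 =
      (fun w : ZMod A × ZMod A => (m w.1, m w.2)) w.2 with hQ4
  have hQ : (Q4.card : ℝ) ≤ (good A d1 d2 x E γ1 γ2).card := by
    rw [Nat.cast_le]
    apply card_le_card_of_injOn (fun w => ((w.1.2 - w.1.1, w.2.1 - w.1.1), w.1.1))
    · rintro ⟨⟨a, b⟩, ⟨c, e⟩⟩ hw
      simp only [hQ4, hP, coe_filter, Set.mem_setOf_eq, mem_filter, mem_product, Prod.mk.injEq, hl,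
        hm, lab] at hw
      obtain ⟨⟨⟨⟨ha, hb⟩, hab1, hab2⟩, ⟨hc, he⟩, hce1, hce2⟩, ⟨hac1, hac2⟩, ⟨hbe1, hbe2⟩⟩ := hw
      have key : e = a + (b - a) + (c - a) := by
        have e1 : (d1 : ZMod A) * (e - c - (b - a)) = 0 := by
          rw [mul_sub, mul_sub, mul_sub, hab1, hce1]; ring
        have e2 : (d2 : ZMod A) * (e - c - (b - a)) = 0 := by
          have : (d2 : ZMod A) * (e - c - (b - a)) = (d2 * e - d2 * b) - (d2 * c - d2 * a) := by ring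
          rw [this, hac1, hbe1]; ring
        have hcz : IsCoprime (d1 : ℤ) (d2 : ℤ) := Nat.isCoprime_iff_coprime.2 hcop
        obtain ⟨p, q, hpq⟩ := hcz
        have e3 : (1 : ZMod A) * (e - c - (b - a)) = 0 := by
          have h5 : ((p * d1 + q * d2 : ℤ) : ZMod A) = 1 := by rw [hpq]; simp
          rw [← h5]
          push_cast
          rw [add_mul, mul_assoc, mul_assoc, e1, e2]
          simp
        rw [one_mul] at e3
        have : e = c + (b - a) := by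
          have := sub_eq_zero.1 e3
          rw [← this]; ring
        rw [this]; ring
      have f1 : a + (b - a) = b := by ring
      have f2 : a + (c - a) = c := by ring
      unfold good
      rw [mem_coe, mem_filter, mem_product, mem_product]
      simp only [mem_Hd, mem_univ, and_true]
      rw [← key, f1, f2]
      refine ⟨⟨by rw [mul_sub, hab1, sub_self], by rw [mul_sub, hac1, sub_self]⟩,
        ⟨ha, hb, hc, he⟩, ?_, ?_⟩
      · have g1 := cell_same A M1 hM1 _ _ hab2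
        have g2 := cell_same A M1 hM1 _ _ hce2
        have : (d1 : ZMod A) * (x a - x b - x c + x e) =
            (d1 * x a - d1 * x b) - (d1 * x c - d1 * x e) := by ring
        rw [this]
        refine (nrm_sub _ _).trans ?_
        linarith
      · have g1 := cell_same A M2 hM2 _ _ hac2
        have g2 := cell_same A M2 hM2 _ _ hbe2
        have : (d2 : ZMod A) * (x a - x b - x c + x e) =
            (d2 * x a - d2 * x c) - (d2 * x b - d2 * x e) := by ring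
        rw [this]
        refine (nrm_sub _ _).trans ?_
        linarith
    · rintro ⟨⟨a, b⟩, ⟨c, e⟩⟩ hw ⟨⟨a', b'⟩, ⟨c', e'⟩⟩ hw' h
      simp only [Prod.mk.injEq] at h
      obtain ⟨⟨h5, h6⟩, h7⟩ := h
      subst h7
      have hb : b = b' := sub_left_injective h5
      have hc : c = c' := sub_left_injective h6
      subst hb hc
      have key : ∀ e : ZMod A, ((a, b), (c, e)) ∈ Q4 → e = c + (b - a) := by
        intro e hw
        simp only [hQ4, hP, mem_filter, mem_product, Prod.mk.injEq, hl, hm, lab] at hw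
        obtain ⟨⟨⟨⟨ha, hb⟩, hab1, hab2⟩, ⟨hc, he⟩, hce1, hce2⟩, ⟨hac1, hac2⟩, ⟨hbe1, hbe2⟩⟩ := hw
        have e1 : (d1 : ZMod A) * (e - c - (b - a)) = 0 := by
          rw [mul_sub, mul_sub, mul_sub, hab1, hce1]; ring
        have e2 : (d2 : ZMod A) * (e - c - (b - a)) = 0 := by
          have : (d2 : ZMod A) * (e - c - (b - a)) = (d2 * e - d2 * b) - (d2 * c - d2 * a) := by ring
          rw [this, hac1, hbe1]; ring
        have hcz : IsCoprime (d1 : ℤ) (d2 : ℤ) := Nat.isCoprime_iff_coprime.2 hcop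
        obtain ⟨p, q, hpq⟩ := hcz
        have e3 : (1 : ZMod A) * (e - c - (b - a)) = 0 := by
          have h5 : ((p * d1 + q * d2 : ℤ) : ZMod A) = 1 := by rw [hpq]; simp
          rw [← h5]
          push_cast
          rw [add_mul, mul_assoc, mul_assoc, e1, e2]
          simp
        rw [one_mul] at e3
        have := sub_eq_zero.1 e3
        rw [← this]; ring
      rw [key e hw, key e' hw']
  have hA := Apos (A := A)
  have hd1' : (0 : ℝ) < d1 := by exact_mod_cast h1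
  have hd2' : (0 : ℝ) < d2 := by exact_mod_cast h2
  have hL10 : 0 ≤ L1 := Nat.cast_nonneg _
  have hL20 : 0 ≤ L2 := Nat.cast_nonneg _
  set W : ℝ := ((good A d1 d2 x E γ1 γ2).card : ℝ) with hW
  have hW0 : 0 ≤ W := Nat.cast_nonneg _
  have s1 : (E.card : ℝ) ^ 4 ≤ L1 ^ 2 * (L2 * W) := by
    calc (E.card : ℝ) ^ 4 = ((E.card : ℝ) ^ 2) ^ 2 := by ring
      _ ≤ (L1 * (P.card : ℝ)) ^ 2 := by gcongr
      _ = L1 ^ 2 * (P.card : ℝ) ^ 2 := by ring
      _ ≤ L1 ^ 2 * (L2 * (Q4.card : ℝ)) := by gcongr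
      _ ≤ L1 ^ 2 * (L2 * W) := by gcongr
  have s2 : (E.card : ℝ) ^ 4 * τ ^ 4 * (d1 * d2) * d1 ≤ (1296 * (A : ℝ) ^ 3 * W) * d1 := by
    calc (E.card : ℝ) ^ 4 * τ ^ 4 * (d1 * d2) * d1
        ≤ (L1 ^ 2 * (L2 * W)) * τ ^ 4 * (d1 * d2) * d1 := by gcongr
      _ = (L1 * τ * d1) ^ 2 * (L2 * τ ^ 2 * d2) * W := by ring
      _ ≤ (6 * A) ^ 2 * (36 * A * d1) * W := by gcongr
      _ = (1296 * (A : ℝ) ^ 3 * W) * d1 := by ring
  exact le_of_mul_le_mul_right s2 hd1'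

theorem av_eq (A : ℕ) [NeZero A] (Q : Finset ℕ) (hQ : ∀ q ∈ Q, q.Prime ∧ q ∣ A)
    (Φ : ℕ → ZMod A → ℝ) : av A Q Φ = (Q.offDiag.card : ℝ)⁻¹ * ∑ p ∈ Q.offDiag,
      ((p.1 : ℝ) * p.2)⁻¹ * ∑ s ∈ Hd A (p.1 * p.2), Φ (p.1 * p.2) s := by
  unfold av
  congr 1
  apply sum_congr rfl
  intro p hp
  obtain ⟨hp1, hp2, hp3⟩ := mem_offDiag.1 hp
  rw [sum_sh A p.1 p.2 (hQ _ hp1).1 (hQ _ hp2).1 hp3 (hQ _ hp1).2 (hQ _ hp2).2]

theorem av_mono (A : ℕ) (Q : Finset ℕ) (Φ Ψ : ℕ → ZMod A → ℝ)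
    (h : ∀ p ∈ Q.offDiag, ∀ s, Φ (p.1 * p.2) s ≤ Ψ (p.1 * p.2) s) : av A Q Φ ≤ av A Q Ψ := by
  unfold av
  gcongr with p hp a ha a' ha'
  exact h p hp _

theorem av_nonneg (A : ℕ) (Q : Finset ℕ) (Φ : ℕ → ZMod A → ℝ) (h : ∀ d s, 0 ≤ Φ d s) :
    0 ≤ av A Q Φ := by
  unfold av
  apply mul_nonneg (by positivity)
  apply sum_nonneg
  intro p _
  apply mul_nonneg (by positivity)
  exact sum_nonneg fun a _ => sum_nonneg fun a' _ => h _ _

theorem av_sum (A : ℕ) [NeZero A] (Q : Finset ℕ) (f : ℕ → ZMod A → ZMod A → ℝ) (c : ℝ) :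
    av A Q (fun d s => c * ∑ z, f d s z) = c * ∑ z, av A Q fun d s => f d s z := by
  unfold av
  simp only [mul_sum]
  conv_rhs => rw [sum_comm]
  apply sum_congr rfl
  intro p _
  conv_rhs => rw [sum_comm]
  apply sum_congr rfl
  intro a _
  conv_rhs => rw [sum_comm]
  apply sum_congr rfl
  intro a' _
  apply sum_congr rfl
  intro z _
  ring

theorem dg_eq (A : ℕ) [NeZero A] (Q : Finset ℕ) (hQ : ∀ q ∈ Q, q.Prime ∧ q ∣ A)
    (x : ZMod A → ZMod A) (R : Finset (ZMod A)) (γ : ℝ) (z : ZMod A) :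
    dg A Q x R γ z = (Q.offDiag.card : ℝ)⁻¹ * ∑ p ∈ Q.offDiag,
      ((p.1 : ℝ) * p.2)⁻¹ * (dgd A (p.1 * p.2) x R γ z : ℝ) := by
  classical
  unfold dg
  rw [av_eq A Q hQ]
  congr 1
  apply sum_congr rfl
  intro p _
  congr 1
  unfold dgd
  rw [card_filter]
  push_cast
  apply sum_congr rfl
  intro s _
  split_ifs <;> rfl

theorem prime_mul_dvd {A : ℕ} {Q : Finset ℕ} (hQ : ∀ q ∈ Q, q.Prime ∧ q ∣ A) {p : ℕ × ℕ}
    (hp : p ∈ Q.offDiag) : p.1 * p.2 ∣ A ∧ 1 ≤ p.1 * p.2 := by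
  obtain ⟨hp1, hp2, hp3⟩ := mem_offDiag.1 hp
  refine ⟨((Nat.coprime_primes (hQ _ hp1).1 (hQ _ hp2).1).2 hp3).mul_dvd_of_dvd_of_dvd
    (hQ _ hp1).2 (hQ _ hp2).2, ?_⟩
  exact Nat.mul_pos (hQ _ hp1).1.pos (hQ _ hp2).1.pos

/-- many directions have a large degree -/
theorem many_dir (A : ℕ) [NeZero A] (Q : Finset ℕ) (hQ : ∀ q ∈ Q, q.Prime ∧ q ∣ A)
    (hc : 2 ≤ Q.card) (x : ZMod A → ZMod A) (R : Finset (ZMod A)) (γ τ : ℝ) (hτ : 0 ≤ τ)
    (z : ZMod A) (h : τ ≤ dg A Q x R γ z) :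
    τ / 2 * Q.offDiag.card ≤
      (Q.offDiag.filter fun p => τ / 2 * (p.1 * p.2 : ℕ) ≤ dgd A (p.1 * p.2) x R γ z).card := by
  classical
  have hoff : 0 < Q.offDiag.card := by
    rw [offDiag_card]
    have : Q.card * 2 ≤ Q.card * Q.card := Nat.mul_le_mul_left _ hc
    omega
  have hoff' : (0 : ℝ) < Q.offDiag.card := by exact_mod_cast hoff
  rw [dg_eq A Q hQ, inv_mul_eq_div, le_div_iff₀ hoff'] at h
  have h1 : ∀ p ∈ Q.offDiag, ((p.1 : ℝ) * p.2)⁻¹ * (dgd A (p.1 * p.2) x R γ z : ℝ) ≤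
      τ / 2 + if τ / 2 * (p.1 * p.2 : ℕ) ≤ dgd A (p.1 * p.2) x R γ z then 1 else 0 := by
    intro p hp
    obtain ⟨h2, h3⟩ := prime_mul_dvd hQ hp
    have h4 : (0 : ℝ) < (p.1 : ℝ) * p.2 := by exact_mod_cast h3
    rw [inv_mul_eq_div, div_le_iff₀ h4]
    split_ifs with h5
    · have h6 : ((dgd A (p.1 * p.2) x R γ z : ℕ) : ℝ) ≤ ((p.1 * p.2 : ℕ) : ℝ) := by
        exact_mod_cast dgd_le A _ h2 x R γ z
      push_cast at h6
      nlinarith
    · push Not at h5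
      push_cast at h5
      linarith
  have h2 := sum_le_sum h1
  rw [sum_add_distrib, sum_const, nsmul_eq_mul, sum_boole] at h2
  linarith

theorem M_facts (γ : ℝ) (h0 : 0 < γ) (h1 : γ ≤ 1 / 2) :
    1 ≤ ⌊1 / γ⌋₊ ∧ (⌊1 / γ⌋₊ : ℝ) * γ ≤ 1 ∧ 1 / (⌊1 / γ⌋₊ : ℝ) ≤ 2 * γ := by
  have h2 : 2 ≤ 1 / γ := by
    rw [le_div_iff₀ h0]; linarith
  have h3 : (⌊1 / γ⌋₊ : ℝ) ≤ 1 / γ := Nat.floor_le (by positivity)
  have h4 : 1 / γ < ⌊1 / γ⌋₊ + 1 := Nat.lt_floor_add_one _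
  have h5 : (1 : ℝ) < ⌊1 / γ⌋₊ := by linarith
  refine ⟨by exact_mod_cast h5.le, ?_, ?_⟩
  · calc (⌊1 / γ⌋₊ : ℝ) * γ ≤ 1 / γ * γ := by gcongr
      _ = 1 := by field_simp
  · rw [div_le_iff₀ (by linarith)]
    have h6 : 1 / (2 * γ) ≤ (⌊1 / γ⌋₊ : ℝ) := by
      have h7 : 1 / (2 * γ) = (1 / γ) / 2 := by
        field_simp
      rw [h7]
      linarith
    calc (1 : ℝ) = 2 * γ * (1 / (2 * γ)) := by field_simp
      _ ≤ 2 * γ * ⌊1 / γ⌋₊ := by gcongr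

theorem offDiag_pos {Q : Finset ℕ} (hc : 2 ≤ Q.card) : (0 : ℝ) < Q.offDiag.card := by
  have : 0 < Q.offDiag.card := by
    rw [offDiag_card]
    have : Q.card * 2 ≤ Q.card * Q.card := Nat.mul_le_mul_left _ hc
    omega
  exact_mod_cast this

theorem av_av (A : ℕ) [NeZero A] (Q1 Q2 : Finset ℕ) (hQ1 : ∀ q ∈ Q1, q.Prime ∧ q ∣ A)
    (hQ2 : ∀ q ∈ Q2, q.Prime ∧ q ∣ A) (F : ZMod A → ZMod A → ℝ) :
    (av A Q1 fun _ s1 => av A Q2 fun _ s2 => F s1 s2) =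
      ∑ w ∈ Q1.offDiag ×ˢ Q2.offDiag, (Q1.offDiag.card * Q2.offDiag.card : ℝ)⁻¹ *
        (((w.1.1 : ℝ) * w.1.2)⁻¹ * ((w.2.1 : ℝ) * w.2.2)⁻¹ *
          ∑ s1 ∈ Hd A (w.1.1 * w.1.2), ∑ s2 ∈ Hd A (w.2.1 * w.2.2), F s1 s2) := by
  rw [av_eq A Q1 hQ1, sum_product, mul_sum]
  apply sum_congr rfl
  intro p _
  simp only [av_eq A Q2 hQ2]
  simp only [mul_sum]
  rw [sum_comm]
  apply sum_congr rfl
  intro r _
  apply sum_congr rfl
  intro s1 _
  apply sum_congr rfl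
  intro s2 _
  rw [mul_inv]
  ring

theorem ev_nonneg (A : ℕ) (x : ZMod A → ZMod A) (R : Finset (ZMod A)) (γ : ℝ) (d3 : ℕ)
    (s1 s2 s3 z : ZMod A) : 0 ≤ ev A x R γ d3 s1 s2 s3 z := by
  unfold ev
  split_ifs
  · exact zero_le_one
  · exact le_refl _

end H80

open H80

set_option maxHeartbeats 1000000 in
/-- The rectangle count (module B3). -/
theorem rect_count (A : ℕ) [NeZero A] (x : ZMod A → ZMod A) (Q1 Q2 Q3 : Finset ℕ)
    (hQ1 : ∀ q ∈ Q1, q.Prime ∧ q ∣ A) (hQ2 : ∀ q ∈ Q2, q.Prime ∧ q ∣ A)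
    (hQ3 : ∀ q ∈ Q3, q.Prime ∧ q ∣ A) (hc1 : 2 ≤ Q1.card) (hc2 : 2 ≤ Q2.card)
    (hc3 : 2 ≤ Q3.card) (hdis : Disjoint Q1 Q2)
    (R R0 : Finset (ZMod A)) (hR0 : R0 ⊆ R) (γ1 γ2 γ3 γ' τ : ℝ) (hγ1 : 0 < γ1) (hγ2 : 0 < γ2)
    (hγ1' : γ1 ≤ 1 / 2) (hγ2' : γ2 ≤ 1 / 2) (hτ : 0 < τ)
    (hdeg : ∀ z ∈ R0, τ ≤ dg A Q1 x R γ1 z ∧ τ ≤ dg A Q2 x R γ2 z ∧ τ ≤ dg A Q3 x R γ3 z)
    (hγ : ∀ p ∈ Q1.offDiag, ∀ r ∈ Q2.offDiag,
      4 * γ1 * (r.1 * r.2) + 4 * γ2 * (p.1 * p.2) < 1)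
    (hγ' : ∀ p ∈ Q1.offDiag, ∀ r ∈ Q3.offDiag,
      γ3 + 4 * γ1 * (r.1 * r.2) / (p.1 * p.2) ≤ γ') :
    (τ ^ 2 * mu A R0 / 4) ^ 4 * (τ / 6) ^ 4 * τ ≤
      av A Q1 fun _ s1 => av A Q2 fun _ s2 => av A Q3 fun d3 s3 =>
        (A : ℝ)⁻¹ * ∑ z, ev A x R γ' d3 s1 s2 s3 z := by
  classical
  have hA := Apos (A := A)
  set O1 := Q1.offDiag with hO1
  set O2 := Q2.offDiag with hO2
  have hO1p : (0 : ℝ) < O1.card := offDiag_pos hc1
  have hO2p : (0 : ℝ) < O2.card := offDiag_pos hc2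
  set G1 : ZMod A → Finset (ℕ × ℕ) := fun z =>
    O1.filter fun p => τ / 2 * (p.1 * p.2 : ℕ) ≤ dgd A (p.1 * p.2) x R γ1 z with hG1
  set G2 : ZMod A → Finset (ℕ × ℕ) := fun z =>
    O2.filter fun p => τ / 2 * (p.1 * p.2 : ℕ) ≤ dgd A (p.1 * p.2) x R γ2 z with hG2
  set E : ℕ × ℕ → ℕ × ℕ → Finset (ZMod A) := fun p r =>
    R0.filter fun z => p ∈ G1 z ∧ r ∈ G2 z with hE
  set a3 : ZMod A → ZMod A → ZMod A → ℝ := fun s1 s2 z =>
    av A Q3 fun d3 s3 => ev A x R γ' d3 s1 s2 s3 z with ha3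
  have ha30 : ∀ s1 s2 z, 0 ≤ a3 s1 s2 z := fun s1 s2 z =>
    av_nonneg A Q3 _ fun d s => ev_nonneg A x R γ' d s1 s2 s z
  obtain ⟨m11, m12, m13⟩ := M_facts γ1 hγ1 hγ1'
  obtain ⟨m21, m22, m23⟩ := M_facts γ2 hγ2 hγ2'
  -- step A
  have hA3 : ∀ p ∈ O1, ∀ r ∈ O2, ∀ w ∈ good A (p.1 * p.2) (r.1 * r.2) x (E p r) γ1 γ2,
      τ ≤ a3 w.1.1 w.1.2 w.2 := by
    intro p hp r hr w hw
    unfold good at hw
    obtain ⟨-, ⟨hz1, hz2, hz3, hz4⟩, hn1, hn2⟩ := mem_filter.1 hw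
    set s1 := w.1.1
    set s2 := w.1.2
    set z := w.2
    have hER : ∀ y ∈ E p r, y ∈ R0 := fun y hy => (mem_filter.1 hy).1
    obtain ⟨hdp, hp1⟩ := prime_mul_dvd hQ1 hp
    obtain ⟨hdr, hr1⟩ := prime_mul_dvd hQ2 hr
    obtain ⟨hpa, hpb, hpne⟩ := mem_offDiag.1 hp
    obtain ⟨hra, hrb, hrne⟩ := mem_offDiag.1 hr
    have hcop : Nat.Coprime (p.1 * p.2) (r.1 * r.2) := by
      have hne : ∀ a ∈ Q1, ∀ b ∈ Q2, Nat.Coprime a b := by
        intro a ha b hb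
        rw [Nat.coprime_primes (hQ1 a ha).1 (hQ2 b hb).1]
        rintro rfl
        exact disjoint_left.1 hdis ha hb
      exact Nat.Coprime.mul_left (Nat.Coprime.mul_right (hne _ hpa _ hra) (hne _ hpa _ hrb))
        (Nat.Coprime.mul_right (hne _ hpb _ hra) (hne _ hpb _ hrb))
    have hΔ := nrm_coprime' A (p.1 * p.2) (r.1 * r.2) hp1 hr1 hcop
      (x z - x (z + s1) - x (z + s2) + x (z + s1 + s2)) (4 * γ1) (4 * γ2) hn1 hn2
      (by push_cast; exact hγ p hp r hr)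
    refine ((hdeg _ (hER _ hz4)).2.2).trans ?_
    rw [ha3]
    unfold dg
    apply av_mono
    intro q hq s
    unfold ev
    split_ifs with h1 h2
    · exact le_refl _
    · exfalso
      apply h2
      refine ⟨hR0 (hER _ hz1), hR0 (hER _ hz2), hR0 (hER _ hz3), h1.1, ?_⟩
      have e1 : ((q.1 * q.2 : ℕ) : ZMod A) * (x z - x (z + s1) - x (z + s2) + x (z + s1 + s2 + s)) =
          ((q.1 * q.2 : ℕ) : ZMod A) * (x z - x (z + s1) - x (z + s2) + x (z + s1 + s2)) +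
            ((q.1 * q.2 : ℕ) : ZMod A) * (x (z + s1 + s2 + s) - x (z + s1 + s2)) := by ring
      rw [e1]
      refine (nrm_add _ _).trans ?_
      have h3 := nrm_mul (q.1 * q.2) (x z - x (z + s1) - x (z + s2) + x (z + s1 + s2))
      have h4 := hγ' p hp q hq
      have h5 : ((q.1 * q.2 : ℕ) : ℝ) * nrm A (x z - x (z + s1) - x (z + s2) + x (z + s1 + s2)) ≤
          4 * γ1 * (q.1 * q.2) / (p.1 * p.2) := by
        calc ((q.1 * q.2 : ℕ) : ℝ) * nrm A (x z - x (z + s1) - x (z + s2) + x (z + s1 + s2))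
            ≤ ((q.1 * q.2 : ℕ) : ℝ) * (4 * γ1 / ((p.1 * p.2 : ℕ) : ℝ)) := by gcongr
          _ = 4 * γ1 * (q.1 * q.2) / (p.1 * p.2) := by push_cast; ring
      linarith [h1.2]
    · exact zero_le_one
    · exact le_refl _
  -- step B
  have hB : ∀ p ∈ O1, ∀ r ∈ O2, τ * (τ / 6) ^ 4 * (mu A (E p r)) ^ 4 ≤
      ((p.1 : ℝ) * p.2)⁻¹ * ((r.1 : ℝ) * r.2)⁻¹ * (A : ℝ)⁻¹ *
        ∑ s1 ∈ Hd A (p.1 * p.2), ∑ s2 ∈ Hd A (r.1 * r.2), ∑ z, a3 s1 s2 z := by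
    intro p hp r hr
    obtain ⟨hdp, hp1⟩ := prime_mul_dvd hQ1 hp
    obtain ⟨hdr, hr1⟩ := prime_mul_dvd hQ2 hr
    obtain ⟨hpa, hpb, hpne⟩ := mem_offDiag.1 hp
    obtain ⟨hra, hrb, hrne⟩ := mem_offDiag.1 hr
    have hcop : Nat.Coprime (p.1 * p.2) (r.1 * r.2) := by
      have hne : ∀ a ∈ Q1, ∀ b ∈ Q2, Nat.Coprime a b := by
        intro a ha b hb
        rw [Nat.coprime_primes (hQ1 a ha).1 (hQ2 b hb).1]
        rintro rfl
        exact disjoint_left.1 hdis ha hb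
      exact Nat.Coprime.mul_left (Nat.Coprime.mul_right (hne _ hpa _ hra) (hne _ hpa _ hrb))
        (Nat.Coprime.mul_right (hne _ hpb _ hra) (hne _ hpb _ hrb))
    have hg := good_card A (p.1 * p.2) (r.1 * r.2) _ _ hdp hdr hp1 hr1 hcop m11 m21 x R (E p r)
      γ1 γ2 τ hτ.le m12 m22 m13 m23
      (fun z hz => (mem_filter.1 (mem_filter.1 hz).2.1).2)
      (fun z hz => (mem_filter.1 (mem_filter.1 hz).2.2).2)
    have h1 : τ * ((good A (p.1 * p.2) (r.1 * r.2) x (E p r) γ1 γ2).card : ℝ) ≤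
        ∑ s1 ∈ Hd A (p.1 * p.2), ∑ s2 ∈ Hd A (r.1 * r.2), ∑ z, a3 s1 s2 z := by
      have h2 : ∑ s1 ∈ Hd A (p.1 * p.2), ∑ s2 ∈ Hd A (r.1 * r.2), ∑ z, a3 s1 s2 z =
          ∑ w ∈ (Hd A (p.1 * p.2) ×ˢ Hd A (r.1 * r.2)) ×ˢ univ, a3 w.1.1 w.1.2 w.2 := by
        rw [sum_product, sum_product]
      rw [h2]
      calc τ * ((good A (p.1 * p.2) (r.1 * r.2) x (E p r) γ1 γ2).card : ℝ)
          = ∑ _w ∈ good A (p.1 * p.2) (r.1 * r.2) x (E p r) γ1 γ2, τ := by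
            rw [sum_const, nsmul_eq_mul, mul_comm]
        _ ≤ ∑ w ∈ good A (p.1 * p.2) (r.1 * r.2) x (E p r) γ1 γ2, a3 w.1.1 w.1.2 w.2 :=
            sum_le_sum (hA3 p hp r hr)
        _ ≤ _ := by
            apply sum_le_sum_of_subset_of_nonneg
            · unfold good
              exact filter_subset _ _
            · intro w _ _
              exact ha30 _ _ _
    have hd1 : (0 : ℝ) < (p.1 : ℝ) * p.2 := by exact_mod_cast hp1
    have hd2 : (0 : ℝ) < (r.1 : ℝ) * r.2 := by exact_mod_cast hr1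
    push_cast at hg
    set c : ℝ := ((p.1 : ℝ) * p.2) with hc
    set e : ℝ := ((r.1 : ℝ) * r.2) with he
    set g : ℝ := ((good A (p.1 * p.2) (r.1 * r.2) x (E p r) γ1 γ2).card : ℝ) with hgdef
    have h3 : (τ / 6) ^ 4 * (mu A (E p r)) ^ 4 ≤ c⁻¹ * e⁻¹ * (A : ℝ)⁻¹ * g := by
      unfold mu
      rw [← mul_pow, div_mul_div_comm, div_pow, div_le_iff₀ (by positivity)]
      have h4 : c⁻¹ * e⁻¹ * (A : ℝ)⁻¹ * g * (6 * A) ^ 4 = (1296 * (A : ℝ) ^ 3 * g) / (c * e) := by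
        field_simp
        ring
      rw [h4, le_div_iff₀ (by positivity)]
      calc (τ * ((E p r).card : ℝ)) ^ 4 * (c * e) =
            ((E p r).card : ℝ) ^ 4 * τ ^ 4 * (c * e) := by ring
        _ ≤ _ := hg
    calc τ * (τ / 6) ^ 4 * (mu A (E p r)) ^ 4 = τ * ((τ / 6) ^ 4 * (mu A (E p r)) ^ 4) := by ring
      _ ≤ τ * (c⁻¹ * e⁻¹ * (A : ℝ)⁻¹ * g) := by gcongr
      _ = c⁻¹ * e⁻¹ * (A : ℝ)⁻¹ * (τ * g) := by ring
      _ ≤ _ := by gcongr
  -- step E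
  have hEsum : (mu A R0) * (τ / 2) ^ 2 * (O1.card * O2.card) ≤
      ∑ w ∈ O1 ×ˢ O2, mu A (E w.1 w.2) := by
    have h1 : ∑ w ∈ O1 ×ˢ O2, ((E w.1 w.2).card : ℝ) =
        ∑ z ∈ R0, ((G1 z).card : ℝ) * ((G2 z).card : ℝ) := by
      have h2 : ∀ w ∈ O1 ×ˢ O2, ((E w.1 w.2).card : ℝ) =
          ∑ z ∈ R0, if w.1 ∈ G1 z ∧ w.2 ∈ G2 z then (1 : ℝ) else 0 := by
        intro w _
        rw [sum_boole]
      rw [sum_congr rfl h2, sum_comm]
      apply sum_congr rfl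
      intro z _
      rw [sum_boole, ← Nat.cast_mul, ← card_product]
      congr 2
      ext w
      simp only [mem_filter, mem_product, hG1, hG2]
      tauto
    have h2 : ∑ w ∈ O1 ×ˢ O2, mu A (E w.1 w.2) =
        (∑ z ∈ R0, ((G1 z).card : ℝ) * ((G2 z).card : ℝ)) / A := by
      rw [← h1, sum_div]
      rfl
    rw [h2, le_div_iff₀ hA]
    have h3 : mu A R0 * (τ / 2) ^ 2 * (O1.card * O2.card) * A =
        ∑ _z ∈ R0, (τ / 2 * O1.card) * (τ / 2 * O2.card) := by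
      rw [sum_const, nsmul_eq_mul]
      unfold mu
      field_simp
    rw [h3]
    apply sum_le_sum
    intro z hz
    obtain ⟨g1, g2, -⟩ := hdeg z hz
    have k1 := many_dir A Q1 hQ1 hc1 x R γ1 τ hτ.le z g1
    have k2 := many_dir A Q2 hQ2 hc2 x R γ2 τ hτ.le z g2
    have n1 : 0 ≤ τ / 2 * (O2.card : ℝ) := by positivity
    exact mul_le_mul k1 k2 n1 (Nat.cast_nonneg _)
  -- step D
  have hD : (τ ^ 2 * mu A R0 / 4) ^ 4 ≤
      ∑ w ∈ O1 ×ˢ O2, (O1.card * O2.card : ℝ)⁻¹ * (mu A (E w.1 w.2)) ^ 4 := by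
    have hw : ∑ _w ∈ O1 ×ˢ O2, (O1.card * O2.card : ℝ)⁻¹ = 1 := by
      rw [sum_const, nsmul_eq_mul, card_product]
      push_cast
      field_simp
    refine le_trans ?_ (Real.pow_arith_mean_le_arith_mean_pow (O1 ×ˢ O2)
      (fun _ => (O1.card * O2.card : ℝ)⁻¹) (fun w => mu A (E w.1 w.2))
      (fun _ _ => by positivity) hw (fun _ _ => by unfold mu; positivity) 4)
    have hmu : 0 ≤ mu A R0 := by unfold mu; positivity
    gcongr
    rw [← mul_sum, inv_mul_eq_div, le_div_iff₀ (by positivity)]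
    calc τ ^ 2 * mu A R0 / 4 * (O1.card * O2.card) =
        (mu A R0) * (τ / 2) ^ 2 * (O1.card * O2.card) := by ring
      _ ≤ _ := hEsum
  -- step C
  have hC : (av A Q1 fun _ s1 => av A Q2 fun _ s2 => av A Q3 fun d3 s3 =>
        (A : ℝ)⁻¹ * ∑ z, ev A x R γ' d3 s1 s2 s3 z) =
      av A Q1 fun _ s1 => av A Q2 fun _ s2 => (A : ℝ)⁻¹ * ∑ z, a3 s1 s2 z := by
    simp only [ha3, av_sum]
  rw [hC, av_av A Q1 Q2 hQ1 hQ2]
  calc (τ ^ 2 * mu A R0 / 4) ^ 4 * (τ / 6) ^ 4 * τ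
      ≤ (∑ w ∈ O1 ×ˢ O2, (O1.card * O2.card : ℝ)⁻¹ * (mu A (E w.1 w.2)) ^ 4) *
          (τ / 6) ^ 4 * τ := by gcongr
    _ = ∑ w ∈ O1 ×ˢ O2, (O1.card * O2.card : ℝ)⁻¹ *
          (τ * (τ / 6) ^ 4 * (mu A (E w.1 w.2)) ^ 4) := by
        rw [sum_mul, sum_mul]
        apply sum_congr rfl
        intro w _
        ring
    _ ≤ _ := by
        apply sum_le_sum
        intro w hw
        obtain ⟨hw1, hw2⟩ := mem_product.1 hw
        apply mul_le_mul_of_nonneg_left _ (by positivity)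
        refine (hB w.1 hw1 w.2 hw2).trans (le_of_eq ?_)
        simp only [← mul_sum]
        ring

end Stz
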